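import Mathlib

/-! A verified backtracking checker: a finite order, given by the bit masks of its up-sets,
has no realizer with four linear extensions. -/

namespace Pool.Agent.MP_cfa48c_co.H50

/-- Search trees: a node names a pair `(u, v)` with `u` not below `v` and has one subtree for
each of the four extensions that may put `v` under `u`. -/
inductive Tr : Type where
  | nil : Tr
  | node : ℕ → ℕ → Tr → Tr → Tr → Tr → Tr

/-- bit `b` of row `a`. -/
def bit (s : List ℕ) (a b : ℕ) : Bool := Nat.testBit (s.getD a 0) b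

/-- add the relation `v ≤ u` and close up. -/
def addP (s : List ℕ) (v u : ℕ) : List ℕ :=
  s.map (fun m => bif Nat.testBit m v then m ||| s.getD u 0 else m)

/-- evaluate a number before going on. -/
def forceN (m : ℕ) (k : ℕ → Bool) : Bool :=
  match m with
  | 0 => k 0
  | j + 1 => k (Nat.succ j)

theorem forceN_eq (m : ℕ) (k : ℕ → Bool) : forceN m k = k m := by
  cases m <;> rfl

/-- evaluate a list before going on. -/
def forceL : List ℕ → (List ℕ → Bool) → Bool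
  | [], k => k []
  | m :: l, k => forceN m (fun m' => forceL l (fun l' => k (m' :: l')))

theorem forceL_eq : ∀ (l : List ℕ) (k : List ℕ → Bool), forceL l k = k l
  | [], _ => rfl
  | m :: l, k => by rw [forceL, forceN_eq, forceL_eq l]

/-- the checker. -/
def chk (n : ℕ) (P : List ℕ) : Tr → List ℕ → List ℕ → List ℕ → List ℕ → Bool
  | .nil, _, _, _, _ => false
  | .node u v c0 c1 c2 c3, s0, s1, s2, s3 =>
    Nat.blt u n && (Nat.blt v n && (!(bit P u v) &&
    ((bit s0 u v || forceL (addP s0 v u) (fun s => chk n P c0 s s1 s2 s3)) &&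
    ((bit s1 u v || (s1 == s0 || forceL (addP s1 v u) (fun s => chk n P c1 s0 s s2 s3))) &&
    ((bit s2 u v || (s2 == s1 || forceL (addP s2 v u) (fun s => chk n P c2 s0 s1 s s3))) &&
    (bit s3 u v || (s3 == s2 || forceL (addP s3 v u) (fun s => chk n P c3 s0 s1 s2 s))))))))

/-- `g` is monotone along the relation `s`. -/
def Comp (s : List ℕ) (g : ℕ → ℕ) : Prop := ∀ a b, bit s a b = true → g a ≤ g b

theorem comp_addP {s : List ℕ} {g : ℕ → ℕ} {v u : ℕ} (h : Comp s g) (hvu : g v ≤ g u) :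
    Comp (addP s v u) g := by
  intro a b hab
  have e : (addP s v u).getD a 0 =
      (bif Nat.testBit (s.getD a 0) v then s.getD a 0 ||| s.getD u 0 else s.getD a 0) := by
    unfold addP
    rcases lt_or_ge a s.length with ha | ha
    · rw [List.getD_eq_getElem _ _ (by simpa using ha), List.getD_eq_getElem _ _ ha,
        List.getElem_map]
    · rw [List.getD_eq_default _ _ (by simpa using ha), List.getD_eq_default _ _ ha]
      simp
  unfold bit at hab
  rw [e] at hab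
  cases hv : Nat.testBit (s.getD a 0) v with
  | false =>
    rw [hv] at hab
    exact h a b hab
  | true =>
    rw [hv] at hab
    simp only [cond_true, Nat.testBit_or, Bool.or_eq_true] at hab
    rcases hab with h1 | h1
    · exact h a b h1
    · exact (h a v hv).trans (hvu.trans (h u b h1))

/-- four monotone functions leave a pair outside `P` unreversed. -/
def Bad (n : ℕ) (P : List ℕ) (g0 g1 g2 g3 : ℕ → ℕ) : Prop :=
  ∃ u v, u < n ∧ v < n ∧ bit P u v = false ∧
    g0 u ≤ g0 v ∧ g1 u ≤ g1 v ∧ g2 u ≤ g2 v ∧ g3 u ≤ g3 v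

theorem chk_sound (n : ℕ) (P : List ℕ) : ∀ (T : Tr) (s0 s1 s2 s3 : List ℕ),
    chk n P T s0 s1 s2 s3 = true → ∀ g0 g1 g2 g3 : ℕ → ℕ,
      Comp s0 g0 → Comp s1 g1 → Comp s2 g2 → Comp s3 g3 → Bad n P g0 g1 g2 g3 := by
  intro T
  induction T with
  | nil => intro s0 s1 s2 s3 h; simp [chk] at h
  | node u v c0 c1 c2 c3 i0 i1 i2 i3 =>
    intro s0 s1 s2 s3 h
    simp only [chk, forceL_eq, Bool.and_eq_true, Bool.or_eq_true, beq_iff_eq, Nat.blt_eq,
      Bool.not_eq_true'] at h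
    obtain ⟨hu, hv, hP, h0, h1, h2, h3⟩ := h
    have q0 : ∀ g0 g1 g2 g3 : ℕ → ℕ, Comp s0 g0 → Comp s1 g1 → Comp s2 g2 → Comp s3 g3 →
        g0 v < g0 u → Bad n P g0 g1 g2 g3 := by
      intro g0 g1 g2 g3 a0 a1 a2 a3 hl
      rcases h0 with h | h
      · exact absurd (a0 u v h) (by omega)
      · exact i0 _ _ _ _ h g0 g1 g2 g3 (comp_addP a0 hl.le) a1 a2 a3
    have q1 : ∀ g0 g1 g2 g3 : ℕ → ℕ, Comp s0 g0 → Comp s1 g1 → Comp s2 g2 → Comp s3 g3 →
        g1 v < g1 u → Bad n P g0 g1 g2 g3 := by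
      intro g0 g1 g2 g3 a0 a1 a2 a3 hl
      rcases h1 with h | h | h
      · exact absurd (a1 u v h) (by omega)
      · obtain ⟨a, b, x1, x2, x3, y0, y1, y2, y3⟩ :=
          q0 g1 g0 g2 g3 (h ▸ a1) (h.symm ▸ a0) a2 a3 hl
        exact ⟨a, b, x1, x2, x3, y1, y0, y2, y3⟩
      · exact i1 _ _ _ _ h g0 g1 g2 g3 a0 (comp_addP a1 hl.le) a2 a3
    have q2 : ∀ g0 g1 g2 g3 : ℕ → ℕ, Comp s0 g0 → Comp s1 g1 → Comp s2 g2 → Comp s3 g3 →
        g2 v < g2 u → Bad n P g0 g1 g2 g3 := by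
      intro g0 g1 g2 g3 a0 a1 a2 a3 hl
      rcases h2 with h | h | h
      · exact absurd (a2 u v h) (by omega)
      · obtain ⟨a, b, x1, x2, x3, y0, y1, y2, y3⟩ :=
          q1 g0 g2 g1 g3 a0 (h ▸ a2) (h.symm ▸ a1) a3 hl
        exact ⟨a, b, x1, x2, x3, y0, y2, y1, y3⟩
      · exact i2 _ _ _ _ h g0 g1 g2 g3 a0 a1 (comp_addP a2 hl.le) a3
    have q3 : ∀ g0 g1 g2 g3 : ℕ → ℕ, Comp s0 g0 → Comp s1 g1 → Comp s2 g2 → Comp s3 g3 →
        g3 v < g3 u → Bad n P g0 g1 g2 g3 := by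
      intro g0 g1 g2 g3 a0 a1 a2 a3 hl
      rcases h3 with h | h | h
      · exact absurd (a3 u v h) (by omega)
      · obtain ⟨a, b, x1, x2, x3, y0, y1, y2, y3⟩ :=
          q2 g0 g1 g3 g2 a0 a1 (h ▸ a3) (h.symm ▸ a2) hl
        exact ⟨a, b, x1, x2, x3, y0, y1, y3, y2⟩
      · exact i3 _ _ _ _ h g0 g1 g2 g3 a0 a1 a2 (comp_addP a3 hl.le)
    intro g0 g1 g2 g3 a0 a1 a2 a3
    by_cases l0 : g0 v < g0 u
    · exact q0 g0 g1 g2 g3 a0 a1 a2 a3 l0
    by_cases l1 : g1 v < g1 u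
    · exact q1 g0 g1 g2 g3 a0 a1 a2 a3 l1
    by_cases l2 : g2 v < g2 u
    · exact q2 g0 g1 g2 g3 a0 a1 a2 a3 l2
    by_cases l3 : g3 v < g3 u
    · exact q3 g0 g1 g2 g3 a0 a1 a2 a3 l3
    exact ⟨u, v, hu, hv, hP, by omega, by omega, by omega, by omega⟩

end Pool.Agent.MP_cfa48c_co.H50
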