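import Pool.Agent.MP_cfa48c_co.H50.Check

/-! The poset on 23 points, its search tree and the realizers of the two-point deletions. -/

namespace Pool.Agent.MP_cfa48c_co.H50

/-- up-set masks of the poset. -/
def ups : List ℕ :=
  [1097729, 3162114, 3930751, 36872, 2170896, 1069088, 81984, 1892993, 3666811, 1057280, 4060923,
   1792096, 4096, 8192, 16384, 32768, 65536, 1265664, 1368064, 1589248, 1048576, 2097152, 8384512]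

/-- rank tables: entry `3 * y + i` holds the `i`-th extension of the deletion of `x` and `y`. -/
def tab : List ℕ :=
  [512742513679588966734312746680672, 703717287137039608779304814051584,
   472243736468502980521521872802112, 346667105116841669934018863632393,
   827948324850769885632852865253382, 472177690845511625807007057182733,
   184412780047822342675526189383753, 827907435351555537906317531742437,
   836070125349993801949749996388875, 470976085980359473884524872470856,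
   827949447946355424425029735022952, 472177690845511625807007056920845,
   468361562663156935228456251429191, 470910039036393317357522878955853,
   626389328695484823456583753662826, 472256921503644390526679979819344,
   706252588335134884516779688263942, 507658731194824098914071623176549,
   469721620342148608128857365709136, 706252588335134884516772406952198,
   512808555713622182784488389677413, 831711586259072414935663458353578,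
   387241386923191316949397132607757, 468399938842152562082097207217415,
   835820498941763171956864967773735, 825451091516590900174109707534598,
   188224112345820227788005539348557, 512821741919874703453347062645104,
   703717287137039608533014242984198, 472243736506281912103004058882373,
   836058143534752764766442272067079, 825372134153460262133659157856485,
   188224112345820226663205144133709, 387231798932331409183882455093517,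
   829172687184404555913248541738405, 472217264957839365404349132177645,
   512848209802636724667856178155880, 826680675461774471776709979373863,
   391048052430893414896172050743565, 704986214363560540492532901544231,
   512783365739143931527442399920494, 472243736505949871061521008890117,
   512862593919957365810232885936497, 512848209667001274363936784978277,
   704986214347585660230254584201478, 431678917034452261449220815687976,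
   826680671230591749200738241773862, 512783365059824134233830080020846,
   472256910623314319838023637991728, 707521496219432998276668598059302,
   510233660984826963960627319738725, 836058917285093180669069205213704,
   825411400064081311548609045922054, 228788660753740012114762419961965,
   224968933674850687022615037805673, 827934708718046079970395467221255,
   836055309964075614746550484599308, 835385982025789864897660371374632,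
   825253059795931468126392728092934, 228195998168859108844322639118446,
   487509581975602950436887870996849, 689774407159014007001634128331046,
   487495197686048518748350946939237, 22148551420636011287905681314152,
   17920870387409126759305570648358, 25964679565174876480167528890733]

/-- empty tree. -/
def z : Tr := Tr.nil

/-- leaf. -/
def lf (u v : ℕ) : Tr := Tr.node u v Tr.nil Tr.nil Tr.nil Tr.nil

/-- inner node. -/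
def nd (u v : ℕ) (a b c d : Tr) : Tr := Tr.node u v a b c d

/-- part of the search tree. -/
def t0 : Tr :=
  nd 1 12 z (nd 1 15 z (nd 7 16 (nd 11 13 z z (nd 2 18 z (nd 7 12 z z z (lf 8 19)) z (nd 7 12 z
   (lf 8 19) z z)) z) z (nd 11 13 (nd 6 20 z (nd 22 6 z z z (nd 8 19 z (lf 10 17) z z)) z (nd 22 6
   z (nd 8 19 z z z (lf 10 17)) z z)) z z z) z) z (nd 22 1 z z (nd 3 14 (nd 3 20 (nd 7 16 (nd 11
   13 z z (nd 2 18 z (nd 7 12 z z z (lf 8 19)) z (nd 7 12 z (lf 8 19) z z)) z) z (nd 11 13 (nd 6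
   20 z (nd 22 6 z z z (nd 8 19 z (lf 10 17) z z)) z (nd 22 6 z (nd 8 19 z z z (lf 10 17)) z z)) z
   z z) z) z (nd 7 12 z (nd 11 15 z z z (nd 8 19 (nd 2 18 z z z (lf 22 0)) z z z)) z (nd 11 15 z
   (nd 8 19 (nd 2 18 z (lf 22 0) z z) z z z) z z)) z) z (nd 3 20 (nd 6 12 z (nd 7 12 z (nd 11 15 z
   z z (nd 8 19 (lf 22 6) z z z)) z (nd 11 15 z (nd 8 19 (nd 2 18 z (lf 22 0) z z) z z z) z z)) z
   (nd 7 12 z (nd 11 15 z z z (nd 8 19 (nd 2 18 z z z (lf 22 0)) z z z)) z (nd 11 15 z (nd 8 19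
   (lf 22 6) z z z) z z))) z (nd 6 12 z (nd 7 12 z (nd 11 15 z z z (nd 8 19 (lf 22 6) z z z)) z
   (nd 11 15 z (nd 8 19 (nd 2 18 z (lf 22 0) z z) z z z) z z)) z (nd 7 12 z (nd 11 15 z z z (nd 8
   19 (nd 2 18 z z z (lf 22 0)) z z z)) z (nd 11 15 z (nd 8 19 (lf 22 6) z z z) z z))) z) z) z)) z
   (nd 1 15 z (nd 22 1 z z (nd 3 14 (nd 3 20 (nd 7 16 (nd 11 13 z z (nd 2 18 z (nd 7 12 z z z (lf
   8 19)) z (nd 7 12 z (lf 8 19) z z)) z) z (nd 11 13 (nd 6 20 z (nd 22 6 z z z (nd 8 19 z (lf 10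
   17) z z)) z (nd 22 6 z (nd 8 19 z z z (lf 10 17)) z z)) z z z) z) z (nd 7 12 z (nd 11 15 z z z
   (nd 8 19 (nd 2 18 z z z (lf 22 0)) z z z)) z (nd 11 15 z (nd 8 19 (nd 2 18 z (lf 22 0) z z) z z
   z) z z)) z) z (nd 3 20 (nd 6 12 z (nd 7 12 z (nd 11 15 z z z (nd 8 19 (lf 22 6) z z z)) z (nd
   11 15 z (nd 8 19 (nd 2 18 z (lf 22 0) z z) z z z) z z)) z (nd 7 12 z (nd 11 15 z z z (nd 8 19
   (nd 2 18 z z z (lf 22 0)) z z z)) z (nd 11 15 z (nd 8 19 (lf 22 6) z z z) z z))) z (nd 6 12 z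
   (nd 7 12 z (nd 11 15 z z z (nd 8 19 (lf 22 6) z z z)) z (nd 11 15 z (nd 8 19 (nd 2 18 z (lf 22
   0) z z) z z z) z z)) z (nd 7 12 z (nd 11 15 z z z (nd 8 19 (nd 2 18 z z z (lf 22 0)) z z z)) z
   (nd 11 15 z (nd 8 19 (lf 22 6) z z z) z z))) z) z) z) z (nd 7 16 (nd 11 13 z z (nd 2 18 z (nd 7
   12 z z z (lf 8 19)) z (nd 7 12 z (lf 8 19) z z)) z) z (nd 11 13 (nd 6 20 z (nd 22 6 z z z (nd 8
   19 z (lf 10 17) z z)) z (nd 22 6 z (nd 8 19 z z z (lf 10 17)) z z)) z z z) z))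

/-- part of the search tree. -/
def t1 : Tr :=
  nd 5 16 (nd 4 12 z (nd 7 16 (nd 11 13 z z (nd 2 18 z (nd 8 19 z z z (lf 22 0)) z (nd 8 19 z (lf
   22 0) z z)) z) z (nd 11 13 (nd 6 20 z (nd 22 6 z z z (nd 8 19 z (lf 10 17) z z)) z (nd 22 6 z
   (nd 8 19 z z z (lf 10 17)) z z)) z z z) z) z (nd 3 13 (nd 3 16 (nd 3 21 t0 z (nd 7 16 (nd 11 13
   z z (nd 2 18 z (nd 7 12 z z z (lf 8 19)) z (nd 7 12 z (lf 8 19) z z)) z) z (nd 11 13 (nd 6 20 z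
   (nd 22 6 z z z (nd 8 19 z (lf 10 17) z z)) z (nd 22 6 z (nd 8 19 z z z (lf 10 17)) z z)) z z z)
   z) z) z (nd 6 12 z (nd 7 16 (nd 11 13 z z (nd 2 18 z (nd 7 12 z z z (lf 8 19)) z (nd 7 12 z (lf
   8 19) z z)) z) z (nd 11 13 (nd 22 6 z z z (nd 6 20 z (nd 8 19 z (lf 10 17) z z) z z)) z z z) z)
   z (nd 7 16 (nd 11 13 z z (nd 2 18 z (nd 7 12 z z z (lf 8 19)) z (nd 7 12 z (lf 8 19) z z)) z) z
   (nd 11 13 (nd 22 6 z (nd 6 20 z z z (nd 8 19 z z z (lf 10 17))) z z) z z z) z)) z) z (nd 3 16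
   (nd 7 16 (nd 11 13 z z (nd 2 18 z (nd 8 19 z z z (lf 22 0)) z (nd 8 19 z (lf 22 0) z z)) z) z
   (nd 11 13 (nd 6 12 z (nd 22 6 z z z (nd 6 20 z (nd 8 19 z (lf 10 17) z z) z z)) z (nd 22 6 z
   (nd 6 20 z z z (nd 8 19 z z z (lf 10 17))) z z)) z z z) z) z (nd 6 12 z (nd 7 16 (nd 11 13 z z
   (nd 2 18 z (nd 8 19 z z z (lf 22 0)) z (nd 8 19 z (lf 22 0) z z)) z) z (nd 11 13 (nd 22 6 z z z
   (nd 6 20 z (nd 8 19 z (lf 10 17) z z) z z)) z z z) z) z (nd 7 16 (nd 11 13 z z (nd 2 18 z (nd 8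
   19 z z z (lf 22 0)) z (nd 8 19 z (lf 22 0) z z)) z) z (nd 11 13 (nd 22 6 z (nd 6 20 z z z (nd 8
   19 z z z (lf 10 17))) z z) z z z) z)) z) z)) z (nd 6 20 z (nd 7 16 (nd 11 13 z z (nd 9 14 z z z
   (nd 22 9 z (nd 2 18 z z z (lf 8 19)) z z)) z) z (nd 11 13 (nd 22 6 z z z (nd 8 19 z (lf 10 17)
   z z)) z z z) z) z (nd 7 16 (nd 11 13 z z (nd 9 14 z (nd 22 9 z z z (nd 2 18 z (lf 8 19) z z)) z
   z) z) z (nd 11 13 (nd 22 6 z (nd 8 19 z z z (lf 10 17)) z z) z z z) z)) z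

/-- part of the search tree. -/
def t2 : Tr :=
  nd 4 20 z (nd 22 0 z (nd 2 18 (nd 8 19 z z z (nd 7 12 z z (nd 7 16 z z (nd 10 17 z z (lf 22 4)
   z) z) z)) z z (nd 8 19 (nd 7 12 z z (nd 7 16 z z (nd 10 17 z z (lf 22 4) z) z) z) z z z)) z (nd
   2 18 (nd 7 16 z z (nd 8 19 z (nd 7 12 z z (nd 10 17 z z (nd 22 1 z z z (nd 22 3 z z z (nd 3 13
   (nd 22 4 z z z (nd 22 5 z z z (nd 11 13 (nd 11 15 (nd 3 14 z (nd 1 15 (nd 3 16 z z (nd 3 20 z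
   (nd 3 21 z z (nd 1 12 (lf 11 21) z z z) z) z z) z) z z z) z z) z z z) z z z))) z z z))) z) z) z
   z) z) (nd 8 19 (nd 7 12 z z (nd 7 16 z z (nd 10 17 z z (nd 11 13 z z z (lf 22 5)) z) z) z) z z
   z) z z)) z (nd 1 16 (nd 11 21 z z t1 z) z (nd 11 13 (nd 11 21 (nd 5 16 (nd 6 20 z (nd 8 19 z
   (nd 22 0 z z z (nd 2 18 (nd 7 12 z z (nd 10 17 z z (lf 22 4) z) z) z z z)) z (nd 22 0 z (nd 2
   18 (nd 7 12 z z (nd 10 17 z z (lf 22 4) z) z) z z z) z z)) z (nd 8 19 z (nd 22 0 z z z (nd 2 18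
   (nd 7 12 z z (nd 10 17 z z (lf 22 4) z) z) z z z)) z (nd 22 0 z (nd 2 18 (nd 7 12 z z (nd 10 17
   z z (lf 22 4) z) z) z z z) z z))) z (nd 4 12 z (nd 8 19 z (nd 22 0 z z z (nd 2 18 (nd 7 12 z z
   (nd 10 17 z z (lf 22 4) z) z) z z z)) z (nd 22 0 z (nd 2 18 (nd 7 12 z z (nd 10 17 z z (lf 22
   4) z) z) z z z) z z)) z (nd 3 13 (nd 3 16 (nd 1 15 z (nd 22 1 z z z (nd 8 19 z (nd 2 18 (nd 10
   17 z z (lf 22 4) z) z z z) z z)) z (nd 22 1 z (nd 8 19 z z z (nd 2 18 (nd 10 17 z z (lf 22 4)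
   z) z z z)) z z)) z (nd 3 21 (nd 1 15 z (nd 22 1 z z z (nd 8 19 z (nd 2 18 (nd 10 17 z z (lf 22
   4) z) z z z) z z)) z (nd 22 1 z (nd 8 19 z z z (nd 2 18 (nd 10 17 z z (lf 22 4) z) z z z)) z
   z)) z (nd 1 12 z (nd 22 1 z z z (nd 8 19 z (nd 2 18 (nd 10 17 z z (lf 22 4) z) z z z) z z)) z
   (nd 22 1 z (nd 8 19 z z z (nd 2 18 (nd 10 17 z z (lf 22 4) z) z z z)) z z)) z) z) z (nd 1 12 z
   (nd 22 1 z z z (nd 8 19 z (nd 2 18 (nd 7 12 z z z (lf 22 0)) z z z) z z)) z (nd 22 1 z (nd 8 19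
   z z z (nd 2 18 (nd 7 12 z (lf 22 0) z z) z z z)) z z)) z)) z) z z z) z z z) z)

/-- part of the search tree. -/
def t3 : Tr :=
  nd 1 12 z (nd 1 15 z (nd 7 16 (nd 11 13 z z (nd 2 18 z (nd 7 12 z z z (lf 8 19)) z (nd 7 12 z
   (lf 8 19) z z)) z) z (nd 11 13 (nd 6 20 z (nd 22 6 z z z (nd 8 19 z (lf 10 17) z z)) z (nd 22 6
   z (nd 8 19 z z z (lf 10 17)) z z)) z z z) z) z (nd 22 1 z z (nd 3 14 (nd 3 20 (nd 7 16 (nd 11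
   13 z z (nd 2 18 z (nd 7 12 z z z (lf 8 19)) z (nd 7 12 z (lf 8 19) z z)) z) z (nd 11 13 (nd 6
   20 z (nd 22 6 z z z (nd 8 19 z (lf 10 17) z z)) z (nd 22 6 z (nd 8 19 z z z (lf 10 17)) z z)) z
   z z) z) z (nd 7 12 z (nd 11 15 z z z (nd 8 19 (nd 2 18 z z z (lf 22 0)) z z z)) z (nd 11 15 z
   (nd 8 19 (nd 2 18 z (lf 22 0) z z) z z z) z z)) z) z (nd 3 20 (nd 6 12 z (nd 7 12 z (nd 11 15 z
   z z (nd 8 19 (lf 22 6) z z z)) z (nd 11 15 z (nd 8 19 (nd 2 18 z (lf 22 0) z z) z z z) z z)) z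
   (nd 7 12 z (nd 11 15 z z z (nd 8 19 (nd 2 18 z z z (lf 22 0)) z z z)) z (nd 11 15 z (nd 8 19
   (lf 22 6) z z z) z z))) z (nd 6 12 z (nd 7 12 z (nd 11 15 z z z (nd 8 19 (lf 22 6) z z z)) z
   (nd 11 15 z (nd 8 19 (nd 2 18 z (lf 22 0) z z) z z z) z z)) z (nd 7 12 z (nd 11 15 z z z (nd 8
   19 (nd 2 18 z z z (lf 22 0)) z z z)) z (nd 11 15 z (nd 8 19 (lf 22 6) z z z) z z))) z) z) z)) z
   (nd 1 15 z (nd 22 1 z z (nd 3 14 (nd 3 20 (nd 7 16 (nd 11 13 z z (nd 2 18 z (nd 7 12 z z z (lf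
   8 19)) z (nd 7 12 z (lf 8 19) z z)) z) z (nd 11 13 (nd 6 20 z (nd 22 6 z z z (nd 8 19 z (lf 10
   17) z z)) z (nd 22 6 z (nd 8 19 z z z (lf 10 17)) z z)) z z z) z) z (nd 7 12 z (nd 11 15 z z z
   (nd 8 19 (nd 2 18 z z z (lf 22 0)) z z z)) z (nd 11 15 z (nd 8 19 (nd 2 18 z (lf 22 0) z z) z z
   z) z z)) z) z (nd 3 20 (nd 6 12 z (nd 7 12 z (nd 11 15 z z z (nd 8 19 (lf 22 6) z z z)) z (nd
   11 15 z (nd 8 19 (nd 2 18 z (lf 22 0) z z) z z z) z z)) z (nd 7 12 z (nd 11 15 z z z (nd 8 19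
   (nd 2 18 z z z (lf 22 0)) z z z)) z (nd 11 15 z (nd 8 19 (lf 22 6) z z z) z z))) z (nd 6 12 z
   (nd 7 12 z (nd 11 15 z z z (nd 8 19 (lf 22 6) z z z)) z (nd 11 15 z (nd 8 19 (nd 2 18 z (lf 22
   0) z z) z z z) z z)) z (nd 7 12 z (nd 11 15 z z z (nd 8 19 (nd 2 18 z z z (lf 22 0)) z z z)) z
   (nd 11 15 z (nd 8 19 (lf 22 6) z z z) z z))) z) z) z) z (nd 7 16 (nd 11 13 z z (nd 2 18 z (nd 7
   12 z z z (lf 8 19)) z (nd 7 12 z (lf 8 19) z z)) z) z (nd 11 13 (nd 6 20 z (nd 22 6 z z z (nd 8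
   19 z (lf 10 17) z z)) z (nd 22 6 z (nd 8 19 z z z (lf 10 17)) z z)) z z z) z))

/-- part of the search tree. -/
def t4 : Tr :=
  nd 5 16 (nd 4 12 z (nd 3 13 (nd 3 16 (nd 3 21 t3 z (nd 7 16 (nd 11 13 z z (nd 2 18 z (nd 7 12 z
   z z (lf 8 19)) z (nd 7 12 z (lf 8 19) z z)) z) z (nd 11 13 (nd 6 20 z (nd 22 6 z z z (nd 8 19 z
   (lf 10 17) z z)) z (nd 22 6 z (nd 8 19 z z z (lf 10 17)) z z)) z z z) z) z) z (nd 6 12 z (nd 7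
   16 (nd 11 13 z z (nd 2 18 z (nd 7 12 z z z (lf 8 19)) z (nd 7 12 z (lf 8 19) z z)) z) z (nd 11
   13 (nd 22 6 z z z (nd 6 20 z (nd 8 19 z (lf 10 17) z z) z z)) z z z) z) z (nd 7 16 (nd 11 13 z
   z (nd 2 18 z (nd 7 12 z z z (lf 8 19)) z (nd 7 12 z (lf 8 19) z z)) z) z (nd 11 13 (nd 22 6 z
   (nd 6 20 z z z (nd 8 19 z z z (lf 10 17))) z z) z z z) z)) z) z (nd 3 16 (nd 7 16 (nd 11 13 z z
   (nd 2 18 z (nd 8 19 z z z (lf 22 0)) z (nd 8 19 z (lf 22 0) z z)) z) z (nd 11 13 (nd 6 12 z (nd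
   22 6 z z z (nd 6 20 z (nd 8 19 z (lf 10 17) z z) z z)) z (nd 22 6 z (nd 6 20 z z z (nd 8 19 z z
   z (lf 10 17))) z z)) z z z) z) z (nd 6 12 z (nd 7 16 (nd 11 13 z z (nd 2 18 z (nd 8 19 z z z
   (lf 22 0)) z (nd 8 19 z (lf 22 0) z z)) z) z (nd 11 13 (nd 22 6 z z z (nd 6 20 z (nd 8 19 z (lf
   10 17) z z) z z)) z z z) z) z (nd 7 16 (nd 11 13 z z (nd 2 18 z (nd 8 19 z z z (lf 22 0)) z (nd
   8 19 z (lf 22 0) z z)) z) z (nd 11 13 (nd 22 6 z (nd 6 20 z z z (nd 8 19 z z z (lf 10 17))) z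
   z) z z z) z)) z) z) z (nd 7 16 (nd 11 13 z z (nd 2 18 z (nd 8 19 z z z (lf 22 0)) z (nd 8 19 z
   (lf 22 0) z z)) z) z (nd 11 13 (nd 6 20 z (nd 22 6 z z z (nd 8 19 z (lf 10 17) z z)) z (nd 22 6
   z (nd 8 19 z z z (lf 10 17)) z z)) z z z) z)) z (nd 6 20 z (nd 7 16 (nd 11 13 z z (nd 9 14 z z
   z (nd 22 9 z (nd 2 18 z z z (lf 8 19)) z z)) z) z (nd 11 13 (nd 22 6 z z z (nd 8 19 z (lf 10
   17) z z)) z z z) z) z (nd 7 16 (nd 11 13 z z (nd 9 14 z (nd 22 9 z z z (nd 2 18 z (lf 8 19) z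
   z)) z z) z) z (nd 11 13 (nd 22 6 z (nd 8 19 z z z (lf 10 17)) z z) z z z) z)) z

/-- part of the search tree. -/
def t5 : Tr :=
  nd 11 13 (nd 1 16 z z (nd 6 20 (nd 5 16 z z (nd 4 12 z (nd 7 16 z z (nd 22 9 z (nd 2 18 z z z
   (lf 8 19)) z z) (nd 2 18 z (nd 8 19 z z (lf 22 0) z) (nd 8 19 z (lf 22 0) z z) z)) z (nd 7 16 z
   z (nd 22 9 z (nd 2 18 z z z (lf 8 19)) z z) (nd 2 18 z (nd 8 19 z z (lf 22 0) z) (nd 8 19 z (lf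
   22 0) z z) z))) (nd 4 12 z (nd 7 16 z z (nd 22 9 z (nd 2 18 z z z (lf 8 19)) z z) (nd 2 18 z
   (nd 8 19 z z (lf 22 0) z) (nd 8 19 z (lf 22 0) z z) z)) (nd 7 16 z z (nd 22 9 z (nd 2 18 z z z
   (lf 8 19)) z z) (nd 2 18 z (nd 8 19 z z (lf 22 0) z) (nd 8 19 z (lf 22 0) z z) z)) z)) (nd 7 16
   z z (nd 22 9 z (nd 2 18 z z z (lf 8 19)) z z) (nd 2 18 z (nd 8 19 z z (lf 22 0) z) (nd 8 19 z
   (lf 22 0) z z) z)) z z) (nd 7 16 z z (nd 22 9 z (nd 2 18 z z z (lf 8 19)) z z) (nd 2 18 z (nd 8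
   19 z z (lf 22 0) z) (nd 8 19 z (lf 22 0) z z) z))) z (nd 7 16 (nd 6 20 z (nd 8 19 z (nd 22 9 z
   z (nd 2 18 z z z (nd 7 12 (nd 10 17 (lf 22 1) z z z) z z z)) z) z (nd 22 6 (nd 10 17 z (nd 2 18
   z z (lf 22 0) z) z z) z z z)) (nd 1 16 (nd 5 16 (nd 4 12 z (nd 8 19 z (nd 22 1 z z z (nd 2 18 z
   z (lf 22 9) z)) z (nd 11 21 z z (nd 22 1 z (nd 2 18 z z (nd 10 17 (lf 22 4) z z z) z) z z) z))
   z (nd 11 21 z z (nd 8 19 z (nd 22 1 z z z (nd 2 18 z z (lf 22 9) z)) z (nd 22 1 z (nd 2 18 z z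
   (nd 10 17 (lf 22 4) z z z) z) z z)) z)) z z (nd 4 12 (nd 8 19 z (nd 22 1 z z z (nd 2 18 z z (lf
   22 9) z)) z (nd 11 21 z z (nd 22 1 z (nd 2 18 z z (lf 22 4) z) z z) z)) (nd 8 19 z (nd 22 1 z z
   z (nd 2 18 z z (lf 22 9) z)) z (nd 11 21 z z (nd 22 1 z (nd 2 18 z z (nd 10 17 (lf 22 4) z z z)
   z) z z) z)) z z)) z z (nd 5 16 (nd 4 12 z (nd 8 19 z (nd 22 1 (nd 10 17 z z z (lf 22 5)) z z z)
   z (nd 22 5 z (nd 2 18 z z (nd 10 17 (lf 22 4) z z z) z) z z)) z (nd 8 19 z (nd 22 1 (nd 10 17 z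
   z z (lf 22 5)) z z z) z (nd 22 5 z (nd 2 18 z z (nd 10 17 (lf 22 4) z z z) z) z z))) z z (nd 4
   12 (nd 11 21 z z (nd 8 19 z (nd 22 1 (nd 10 17 z z z (nd 2 18 z z (lf 22 0) z)) z z z) z (nd 22
   4 z z (nd 2 18 z (nd 10 17 (lf 22 1) z z z) z z) z)) z) (nd 8 19 z (nd 22 1 (nd 10 17 z z z (nd
   2 18 z z (lf 22 0) z)) z z z) z (nd 2 18 z (nd 7 12 (nd 10 17 (lf 22 1) z z z) z z z) (nd 22 0
   z (nd 7 12 (nd 10 17 (lf 22 4) z z z) z z z) z z) z)) z z))) z) z z (nd 8 19 z (nd 2 18 z z (lf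
   22 0) z) z z)) z

/-- part of the search tree. -/
def t6 : Tr :=
  nd 3 16 (nd 3 21 (nd 6 12 z (nd 3 14 (nd 7 12 z (nd 8 19 z z (lf 11 15) z) z (nd 8 19 z (nd 11
   15 z z (nd 10 17 z z z (lf 22 5)) z) (nd 11 15 z (nd 10 17 z z z (lf 22 5)) z z) z)) z z (nd 7
   12 z (nd 8 19 z z (lf 11 15) z) z z)) z (nd 3 14 (nd 8 19 z (nd 11 15 z z (lf 22 6) z) (nd 11
   15 z (lf 22 6) z z) z) (nd 11 15 z z (nd 8 19 z (lf 22 6) z z) z) z z)) z z (nd 1 12 z (nd 3 14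
   (nd 6 12 z (nd 7 12 z (nd 8 19 z z (lf 11 15) z) z (nd 8 19 z (nd 11 15 z z (nd 10 17 z z z (lf
   22 5)) z) (nd 11 15 z (nd 10 17 z z z (lf 22 5)) z z) z)) z (nd 8 19 z (nd 11 15 z z (lf 22 6)
   z) (nd 11 15 z (lf 22 6) z z) z)) z z (nd 6 12 z (nd 7 12 z (nd 8 19 z z (lf 11 15) z) z z) z
   z)) (nd 6 12 z (nd 3 14 (nd 7 12 z (nd 8 19 z z (lf 11 15) z) z (nd 8 19 z (nd 11 15 z z (nd 10
   17 z z z (lf 22 5)) z) (nd 11 15 z (nd 10 17 z z z (lf 22 5)) z z) z)) z z (nd 7 12 z (nd 8 19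
   z z (lf 11 15) z) z z)) z (nd 3 14 (nd 8 19 z (nd 11 15 z z (lf 22 6) z) (nd 11 15 z (lf 22 6)
   z z) z) (nd 11 15 z z (nd 8 19 z (lf 22 6) z z) z) z z)) z)) z z (nd 3 21 (nd 6 12 (nd 3 14 z
   (nd 7 12 z z z (nd 22 3 z z (nd 8 19 z (nd 2 18 (nd 10 17 z z z (lf 22 1)) z z z) z z) z)) z
   (nd 7 12 z (nd 8 19 z z (lf 22 0) z) z z)) (nd 3 14 (nd 7 12 z (nd 8 19 z z (lf 11 15) z) z (nd
   8 19 z (nd 11 15 z z (nd 10 17 z z z (lf 22 5)) z) (nd 11 15 z (nd 10 17 z z z (lf 22 5)) z z)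
   z)) z z (nd 7 12 z (nd 8 19 z z (lf 22 0) z) z z)) z z) z z (nd 6 12 (nd 3 14 z (nd 7 12 z z z
   (nd 22 3 z z (nd 8 19 z (nd 2 18 (nd 10 17 z z z (lf 22 1)) z z z) z z) z)) z (nd 7 12 z (nd 8
   19 z z (lf 22 0) z) z z)) (nd 3 14 (nd 1 12 z (nd 7 12 z (nd 8 19 z z (lf 11 15) z) z (nd 8 19
   z (nd 11 15 z z (nd 10 17 z z z (lf 22 5)) z) (nd 11 15 z (nd 10 17 z z z (lf 22 5)) z z) z))
   (nd 7 12 z (nd 8 19 z z (lf 11 15) z) z (nd 8 19 z (nd 11 15 z z (nd 10 17 z z z (lf 22 5)) z)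
   (nd 11 15 z (nd 10 17 z z z (lf 22 5)) z z) z)) z) z z (nd 7 12 z (nd 8 19 z z (lf 22 0) z) z
   z)) z z))

/-- part of the search tree. -/
def t7 : Tr :=
  nd 3 16 (nd 3 21 (nd 6 12 z (nd 22 6 z z z (nd 11 21 (nd 8 19 z (lf 10 17) z z) z z z)) (nd 7 12
   z (nd 8 19 (nd 2 18 z z (lf 22 0) z) z z z) z (nd 3 14 (nd 8 19 (nd 11 21 z z z (nd 10 17 z (lf
   22 5) z z)) (nd 22 0 z z (nd 2 18 (lf 22 5) z z z) z) z z) (nd 8 19 (nd 11 21 z z z (nd 10 17 z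
   (lf 22 5) z z)) (nd 22 0 z z (nd 2 18 (lf 22 5) z z z) z) z z) z z)) z) z z (nd 1 12 z (nd 3 14
   (nd 6 12 z (nd 22 6 z z z (nd 11 21 (nd 8 19 z (lf 10 17) z z) z z z)) (nd 7 12 z (nd 8 19 (nd
   2 18 z z (lf 22 0) z) z z z) z (nd 8 19 (nd 11 21 z z z (nd 10 17 z (lf 22 5) z z)) (nd 22 0 z
   z (nd 2 18 (lf 22 5) z z z) z) z z)) z) z z (nd 7 12 z (nd 8 19 (nd 2 18 z z (lf 22 0) z) z z
   z) z z)) (nd 6 12 z (nd 22 6 z z z (nd 11 21 (nd 8 19 z (lf 10 17) z z) z z z)) (nd 7 12 z (nd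
   8 19 (nd 2 18 z z (lf 22 0) z) z z z) z (nd 3 14 (nd 8 19 (nd 11 21 z z z (nd 10 17 z (lf 22 5)
   z z)) (nd 22 0 z z (nd 2 18 (lf 22 5) z z z) z) z z) (nd 22 3 z z (nd 2 18 (nd 8 19 z (lf 22 5)
   z z) (nd 8 19 (lf 22 5) z z z) z z) z) z z)) z) z)) z z (nd 3 21 (nd 7 12 z (nd 8 19 (nd 2 18 z
   z (lf 22 0) z) z z z) z (nd 3 14 (nd 6 12 z (nd 22 6 z z z (nd 11 21 (nd 8 19 z (lf 10 17) z z)
   z z z)) (nd 8 19 (nd 11 21 z z z (nd 10 17 z (lf 22 5) z z)) (nd 22 0 z z (nd 2 18 (lf 22 5) z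
   z z) z) z z) z) (nd 22 3 z z (nd 1 12 z z (nd 2 18 (nd 8 19 z (lf 22 5) z z) (nd 8 19 (lf 22 5)
   z z z) z z) (nd 11 21 (nd 8 19 z (lf 22 5) z z) z z z)) z) z z)) z z (nd 7 12 z (nd 8 19 (nd 2
   18 z z (lf 22 0) z) z z z) z (nd 3 14 (nd 1 12 z (nd 6 12 z (nd 22 6 z z z (nd 11 21 (nd 8 19 z
   (lf 10 17) z z) z z z)) (nd 8 19 (nd 11 21 z z z (nd 10 17 z (lf 22 5) z z)) (nd 22 0 z z (nd 2
   18 (lf 22 5) z z z) z) z z) z) (nd 6 12 z (nd 22 6 z z z (nd 11 21 (nd 8 19 z (lf 10 17) z z) z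
   z z)) (nd 8 19 (nd 11 21 z z z (nd 10 17 z (lf 22 5) z z)) (nd 22 0 z z (nd 2 18 (lf 22 5) z z
   z) z) z z) z) z) (nd 22 3 z z (nd 1 12 (nd 3 20 z (nd 11 21 z z z (nd 22 6 z (nd 2 18 (lf 8 19)
   z z z) z z)) z z) z (nd 2 18 (nd 8 19 z (lf 22 5) z z) (nd 8 19 (lf 22 5) z z z) z z) z) z) z
   z)))

/-- part of the search tree. -/
def t8 : Tr :=
  nd 5 16 z z (nd 11 13 (nd 4 12 z (nd 3 13 t6 z z (nd 7 12 z (nd 8 19 z z (lf 22 0) z) z z)) z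
   (nd 11 21 (nd 22 4 (nd 2 18 z (nd 8 19 z z (lf 22 0) z) (nd 8 19 z (lf 22 0) z z) z) z z z) z z
   z)) z (nd 8 19 (nd 11 21 z z z (nd 10 17 z (lf 22 5) z z)) (nd 22 0 z z (nd 2 18 (nd 7 12 z z z
   (nd 10 17 z z z (lf 22 1))) z z z) z) z z) z) (nd 11 13 (nd 4 12 z (nd 3 13 (nd 3 16 (nd 3 21
   (nd 6 12 z (nd 3 14 (nd 8 19 z (nd 11 15 z z (lf 22 5) z) (nd 11 15 z (lf 22 5) z z) z) z z (nd
   1 12 z (nd 7 12 z (nd 8 19 z z (lf 11 15) z) (nd 8 19 z (lf 11 15) z z) z) (nd 7 12 z (nd 8 19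
   z z (lf 11 15) z) (nd 8 19 z (lf 11 15) z z) z) z)) (nd 8 19 z (nd 11 15 z z (lf 22 5) z) (nd
   11 15 z (lf 22 5) z z) z) z) z z (nd 1 12 z (nd 3 14 (nd 6 12 z (nd 8 19 z (nd 11 15 z z (lf 22
   5) z) (nd 11 15 z (lf 22 5) z z) z) (nd 8 19 z (nd 11 15 z z (lf 22 5) z) (nd 11 15 z (lf 22 5)
   z z) z) z) z z (nd 6 12 z (nd 7 12 z (nd 8 19 z z (lf 11 15) z) (nd 8 19 z (lf 11 15) z z) z)
   (nd 7 12 z (nd 8 19 z z (lf 11 15) z) (nd 8 19 z (lf 11 15) z z) z) z)) (nd 6 12 z (nd 3 14 (nd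
   8 19 z (nd 11 15 z z (lf 22 5) z) (nd 11 15 z (lf 22 5) z z) z) z z (nd 7 12 z (nd 8 19 z z (lf
   11 15) z) (nd 8 19 z (lf 11 15) z z) z)) (nd 8 19 z (nd 11 15 z z (lf 22 5) z) (nd 11 15 z (lf
   22 5) z z) z) z) z)) z z (nd 3 21 (nd 8 19 z (nd 22 0 z z (nd 2 18 (nd 7 12 z z z (nd 10 17 z z
   z (lf 22 1))) z z z) z) (nd 22 0 z (nd 2 18 (lf 22 9) z z z) z z) z) z z (nd 8 19 z (nd 22 0 z
   z (nd 2 18 (nd 7 12 z z z (nd 10 17 z z z (lf 22 1))) z z z) z) (nd 22 0 z (nd 2 18 (lf 22 9) z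
   z z) z z) z))) z z (nd 7 12 z (nd 8 19 z z (lf 22 0) z) (nd 8 19 z (lf 22 0) z z) z)) (nd 8 19
   z (nd 22 0 z z (nd 2 18 (nd 7 12 z z z (nd 10 17 z z z (lf 22 1))) z z z) z) (nd 22 0 z (nd 2
   18 (lf 22 9) z z z) z z) z) z) z (nd 4 12 (nd 11 21 z z z (nd 22 4 z z z (nd 22 6 z (nd 8 19
   (lf 10 17) z z z) z z))) (nd 3 13 t7 z z (nd 7 12 (nd 8 19 z (nd 2 18 z z (lf 22 0) z) z z) (nd
   8 19 (nd 2 18 z z (lf 22 0) z) z z z) z z)) z z) z)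

/-- part of the search tree. -/
def t9 : Tr :=
  nd 11 13 (nd 4 12 z (nd 3 13 (nd 3 16 (nd 3 21 (nd 6 12 z (nd 3 14 (nd 7 12 z (nd 8 19 z z (lf
   11 15) z) z (nd 8 19 z (nd 11 15 z z (nd 10 17 z z z (lf 22 5)) z) (nd 11 15 z (nd 10 17 z z z
   (lf 22 5)) z z) z)) z z (nd 7 12 z (nd 8 19 z z (lf 11 15) z) z z)) z (nd 3 14 (nd 8 19 z (nd
   11 15 z z (lf 22 6) z) (nd 11 15 z (lf 22 6) z z) z) (nd 11 15 z z (nd 8 19 z (lf 22 6) z z) z)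
   z z)) z z (nd 6 12 z (nd 1 12 z (nd 22 1 (nd 2 18 z (nd 7 12 z z z (nd 3 14 (nd 8 19 z z (lf 22
   0) z) z z z)) (nd 8 19 z (lf 22 0) z z) z) z z z) (nd 11 21 (nd 3 14 (nd 7 12 z (nd 8 19 z z
   (lf 11 15) z) z (nd 8 19 z (nd 11 15 z z (nd 10 17 z z z (lf 22 5)) z) (nd 11 15 z (nd 10 17 z
   z z (lf 22 5)) z z) z)) z z (nd 7 12 z (nd 8 19 z z (lf 11 15) z) z z)) z z z) z) z z)) z z (nd
   3 21 (nd 6 12 (nd 3 14 z (nd 7 12 z z z (nd 22 3 z z (nd 8 19 z (nd 2 18 (lf 22 1) z z z) z z)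
   z)) z (nd 7 12 z (nd 8 19 z z (lf 22 0) z) z z)) (nd 3 14 (nd 7 12 z (nd 8 19 z z (lf 11 15) z)
   z (nd 8 19 z (nd 11 15 z z (nd 10 17 z z z (lf 22 5)) z) (nd 11 15 z (nd 10 17 z z z (lf 22 5))
   z z) z)) z z (nd 7 12 z (nd 8 19 z z (lf 22 0) z) z z)) z z) z z (nd 6 12 (nd 3 14 z (nd 7 12 z
   z z (nd 22 3 z z (nd 8 19 z (nd 2 18 (lf 22 1) z z z) z z) z)) z (nd 7 12 z (nd 8 19 z z (lf 22
   0) z) z z)) (nd 3 14 (nd 1 12 z (nd 22 1 (nd 2 18 z (nd 7 12 z z z (nd 8 19 z z (lf 22 0) z))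
   (nd 8 19 z (lf 22 0) z z) z) z z z) (nd 11 21 (nd 7 12 z (nd 8 19 z z (lf 11 15) z) z (nd 8 19
   z (nd 11 15 z z (nd 10 17 z z z (lf 22 5)) z) (nd 11 15 z (nd 10 17 z z z (lf 22 5)) z z) z)) z
   z z) z) z z (nd 7 12 z (nd 8 19 z z (lf 22 0) z) z z)) z z))) z z (nd 7 12 z (nd 8 19 z z (lf
   22 0) z) z z)) z (nd 22 4 (nd 2 18 z (nd 8 19 z z (lf 22 0) z) (nd 8 19 z (lf 22 0) z z) z) z z
   z)) z (nd 8 19 (nd 11 21 z z (nd 22 1 z (nd 2 18 z z (lf 22 9) z) z z) z) (nd 22 0 z z (nd 2 18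
   (lf 22 1) z z z) z) z z) z

/-- part of the search tree. -/
def t10 : Tr :=
  nd 4 12 (nd 11 21 z z (nd 22 4 z z z (nd 3 13 z (nd 1 12 (nd 22 1 z (nd 8 19 (lf 10 17) z z z) z
   z) z z (nd 3 21 z (nd 3 16 z (nd 8 19 (nd 10 17 z (lf 22 1) z z) (nd 10 17 (lf 22 1) z z z) z
   z) z (nd 8 19 (nd 10 17 z (lf 22 1) z z) (nd 10 17 (lf 22 1) z z z) z z)) z z)) z (nd 1 12 (nd
   22 1 z (nd 8 19 (lf 10 17) z z z) z z) (nd 3 14 z z z (nd 3 20 z z z (nd 22 1 (nd 8 19 z (lf 10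
   17) z z) z z z))) z z))) z) (nd 3 13 (nd 3 16 (nd 3 21 (nd 6 12 z (nd 22 6 z z z (nd 3 14 (nd 7
   12 z (nd 8 19 (nd 2 18 z z (lf 22 0) z) z z z) z (nd 8 19 (nd 10 17 z (lf 22 1) z z) (nd 10 17
   (lf 22 1) z z z) z z)) z z (nd 7 12 z (nd 8 19 (nd 2 18 z z (lf 22 0) z) z z z) z z))) (nd 7 12
   z (nd 8 19 (nd 2 18 z z (lf 22 0) z) z z z) z (nd 3 14 (nd 8 19 (nd 11 21 z z (nd 22 1 z (nd 1
   12 z z z (nd 2 18 z z (lf 22 9) z)) z z) z) (nd 22 0 z z (nd 2 18 (lf 22 1) z z z) z) z z) (nd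
   1 12 z z (nd 11 21 (nd 8 19 z (lf 22 5) z z) z z z) (nd 8 19 (nd 11 21 z z (nd 22 1 z (nd 2 18
   z z (lf 22 9) z) z z) z) (nd 22 0 z z (nd 2 18 (lf 22 1) z z z) z) z z)) z z)) z) z z (nd 1 12
   z (nd 22 1 (nd 8 19 z (nd 2 18 z z (lf 22 0) z) z z) z z z) (nd 11 21 (nd 8 19 z (lf 22 5) z z)
   z z z) z)) z z (nd 3 21 (nd 7 12 z (nd 8 19 (nd 2 18 z z (lf 22 0) z) z z z) z (nd 3 14 (nd 6
   12 z (nd 22 6 z z z (nd 8 19 (nd 10 17 z (lf 22 1) z z) (nd 10 17 (lf 22 1) z z z) z z)) (nd 8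
   19 (nd 11 21 z z (nd 22 1 z (nd 1 12 z z z (nd 2 18 z z (lf 22 9) z)) z z) z) (nd 22 0 z z (nd
   2 18 (lf 22 1) z z z) z) z z) z) (nd 22 3 z z (nd 1 12 z z (nd 11 21 (nd 8 19 z (lf 22 5) z z)
   z z z) (nd 2 18 (nd 8 19 z (lf 22 1) z z) (nd 8 19 (lf 22 1) z z z) z z)) z) z z)) z z (nd 7 12
   z (nd 8 19 (nd 2 18 z z (lf 22 0) z) z z z) z (nd 3 14 (nd 1 12 z (nd 22 1 (nd 8 19 z (nd 2 18
   z z (lf 22 0) z) z z) z z z) (nd 11 21 (nd 8 19 z (lf 22 5) z z) z z z) z) (nd 22 3 z z (nd 1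
   12 (nd 3 20 z (nd 11 21 z z (nd 22 1 z (nd 2 18 (lf 8 19) z z z) z z) z) z z) z (nd 11 21 (nd 8
   19 z (lf 22 5) z z) z z z) z) z) z z)))) z z (nd 7 12 (nd 8 19 z (nd 2 18 z z (lf 22 0) z) z z)
   (nd 8 19 (nd 2 18 z z (lf 22 0) z) z z z) z z)) z z

/-- part of the search tree. -/
def t11 : Tr :=
  nd 3 21 (nd 6 12 z (nd 3 14 (nd 3 20 (nd 7 12 z (nd 8 19 (nd 2 18 z z (lf 22 0) z) z z z) z (nd
   8 19 (nd 22 4 z z z (nd 10 17 z (nd 2 18 z z (lf 22 0) z) z z)) (nd 22 0 z z (nd 2 18 (nd 10 17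
   z z z (lf 22 1)) z z z) z) z z)) z z (nd 7 12 z (nd 8 19 (nd 2 18 z z (lf 22 0) z) z z z) z z))
   z z (nd 7 12 z (nd 8 19 (nd 2 18 z z (lf 22 0) z) z z z) z z)) (nd 7 12 z (nd 8 19 (nd 2 18 z z
   (lf 22 0) z) z z z) z (nd 3 14 (nd 3 20 (nd 8 19 (nd 22 4 z z z (nd 10 17 z (nd 2 18 z z (lf 22
   0) z) z z)) (nd 22 0 z z (nd 2 18 (nd 10 17 z z z (lf 22 1)) z z z) z) z z) (nd 22 3 z z (nd 1
   12 z z (nd 11 21 z z z (nd 22 5 z (nd 2 18 (lf 8 19) z z z) z z)) (nd 11 21 z z (nd 22 1 z (nd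
   2 18 (lf 8 19) z z z) z z) z)) z) z z) (nd 22 3 z z (nd 1 12 z z (nd 11 21 z z z (nd 22 5 z (nd
   2 18 (lf 8 19) z z z) z z)) (nd 11 21 z z (nd 22 1 z (nd 2 18 (lf 8 19) z z z) z z) z)) z) z
   z)) z) z z (nd 6 12 z (nd 3 14 (nd 1 12 z (nd 22 1 z z z (nd 3 20 (nd 7 12 z (nd 8 19 (nd 2 18
   z z (lf 22 0) z) z z z) z (nd 8 19 (nd 10 17 z (nd 2 18 z z (lf 22 0) z) z z) (nd 10 17 (nd 2
   18 z z (lf 22 0) z) z z z) z z)) z z (nd 7 12 z (nd 8 19 (nd 2 18 z z (lf 22 0) z) z z z) z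
   z))) (nd 11 21 z z z (nd 22 5 z (nd 8 19 (lf 10 17) z z z) z z)) z) z z (nd 7 12 z (nd 8 19 (nd
   2 18 z z (lf 22 0) z) z z z) z z)) (nd 7 12 z (nd 8 19 (nd 2 18 z z (lf 22 0) z) z z z) z (nd 3
   14 (nd 1 12 z (nd 3 20 (nd 22 1 z z z (nd 8 19 (nd 10 17 z (nd 2 18 z z (lf 22 0) z) z z) (nd
   10 17 (nd 2 18 z z (lf 22 0) z) z z z) z z)) z z z) (nd 11 21 z z z (nd 22 5 z (nd 8 19 (lf 10
   17) z z z) z z)) z) (nd 22 3 z z (nd 1 12 (nd 3 20 z (nd 2 18 (nd 8 19 z (nd 10 17 z z z (lf 22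
   1)) z z) (nd 8 19 (nd 10 17 z z z (lf 22 1)) z z z) z z) z z) z (nd 11 21 z z z (nd 22 5 z (nd
   2 18 (lf 8 19) z z z) z z)) z) z) z z)) z)

/-- part of the search tree. -/
def t12 : Tr :=
  nd 3 21 (nd 6 12 z (nd 3 14 (nd 3 20 (nd 7 12 z (nd 8 19 (nd 2 18 z z (lf 22 0) z) z z z) z (nd
   8 19 (nd 22 4 z z z (nd 10 17 z (lf 22 5) z z)) (nd 22 0 z z (nd 2 18 (lf 22 5) z z z) z) z z))
   z z (nd 7 12 z (nd 8 19 (nd 2 18 z z (lf 22 0) z) z z z) z z)) z z (nd 7 12 z (nd 8 19 (nd 2 18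
   z z (lf 22 0) z) z z z) z z)) (nd 7 12 z (nd 8 19 (nd 2 18 z z (lf 22 0) z) z z z) z (nd 3 14
   (nd 3 20 (nd 8 19 (nd 22 4 z z z (nd 10 17 z (lf 22 5) z z)) (nd 22 0 z z (nd 2 18 (lf 22 5) z
   z z) z) z z) (nd 1 12 z z (nd 11 21 z z z (nd 8 19 (nd 10 17 z (lf 22 5) z z) (nd 10 17 (lf 22
   5) z z z) z z)) (nd 11 21 z z (nd 22 1 z (nd 8 19 (nd 2 18 z z (lf 22 9) z) z z z) z z) z)) z
   z) (nd 1 12 z z (nd 11 21 z z z (nd 3 20 (nd 8 19 (nd 10 17 z (lf 22 5) z z) (nd 10 17 (lf 22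
   5) z z z) z z) (nd 8 19 (nd 10 17 z (lf 22 5) z z) (nd 10 17 (lf 22 5) z z z) z z) z z)) (nd 11
   21 z z (nd 22 1 z (nd 8 19 (nd 2 18 z z (lf 22 9) z) z z z) z z) z)) z z)) z) z z (nd 6 12 z
   (nd 3 14 (nd 1 12 z (nd 22 1 z z z (nd 3 20 (nd 7 12 z (nd 8 19 (nd 2 18 z z (lf 22 0) z) z z
   z) z (nd 8 19 (nd 10 17 z (lf 22 5) z z) (nd 10 17 (lf 22 5) z z z) z z)) z z (nd 7 12 z (nd 8
   19 (nd 2 18 z z (lf 22 0) z) z z z) z z))) (nd 11 21 z z z (nd 22 6 (nd 8 19 z (lf 10 17) z z)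
   z z z)) z) z z (nd 7 12 z (nd 8 19 (nd 2 18 z z (lf 22 0) z) z z z) z z)) (nd 7 12 z (nd 8 19
   (nd 2 18 z z (lf 22 0) z) z z z) z (nd 3 14 (nd 1 12 z (nd 3 20 (nd 22 1 z z z (nd 8 19 (nd 10
   17 z (lf 22 5) z z) (nd 10 17 (lf 22 5) z z z) z z)) z z z) (nd 11 21 z z z (nd 3 20 (nd 8 19
   (nd 10 17 z (lf 22 5) z z) (nd 10 17 (lf 22 5) z z z) z z) (nd 22 3 z z (nd 2 18 (nd 8 19 z (lf
   10 17) z z) (nd 8 19 (lf 10 17) z z z) z z) z) z z)) z) (nd 22 3 z z (nd 1 12 (nd 3 20 z (nd 2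
   18 (nd 8 19 z (lf 22 5) z z) (nd 8 19 (lf 22 5) z z z) z z) z z) z (nd 11 21 z z z (nd 2 18 (nd
   8 19 z (lf 10 17) z z) (nd 8 19 (lf 10 17) z z z) z z)) z) z) z z)) z)

/-- part of the search tree. -/
def t13 : Tr :=
  nd 4 12 (nd 22 4 z z z (nd 3 13 z (nd 3 16 z (nd 3 21 z (nd 6 12 (nd 7 12 (nd 8 19 z (nd 2 18 z
   z (lf 22 0) z) z z) z z (nd 8 19 (nd 10 17 z (lf 22 5) z z) (nd 10 17 (lf 22 5) z z z) z z)) z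
   (nd 7 12 (nd 8 19 z (nd 2 18 z z (lf 22 0) z) z z) z z (nd 8 19 (nd 10 17 z (lf 22 5) z z) (nd
   10 17 (lf 22 5) z z z) z z)) z) z (nd 6 12 (nd 7 12 (nd 8 19 z (nd 2 18 z z (lf 22 0) z) z z) z
   z (nd 8 19 (nd 10 17 z (lf 22 5) z z) (nd 10 17 (lf 22 5) z z z) z z)) z (nd 7 12 (nd 8 19 z
   (nd 2 18 z z (lf 22 0) z) z z) z z (nd 8 19 (nd 10 17 z (lf 22 5) z z) (nd 10 17 (lf 22 5) z z
   z) z z)) z)) z (nd 3 21 z (nd 6 12 (nd 7 12 (nd 8 19 z (nd 2 18 z z (lf 22 0) z) z z) z z (nd 8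
   19 (nd 10 17 z (lf 22 5) z z) (nd 10 17 (lf 22 5) z z z) z z)) z (nd 7 12 (nd 8 19 z (nd 2 18 z
   z (lf 22 0) z) z z) z z (nd 8 19 (nd 10 17 z (lf 22 5) z z) (nd 10 17 (lf 22 5) z z z) z z)) z)
   z (nd 6 12 (nd 7 12 (nd 8 19 z (nd 2 18 z z (lf 22 0) z) z z) z z (nd 8 19 (nd 10 17 z (lf 22
   5) z z) (nd 10 17 (lf 22 5) z z z) z z)) z (nd 7 12 (nd 8 19 z (nd 2 18 z z (lf 22 0) z) z z) z
   z (nd 8 19 (nd 10 17 z (lf 22 5) z z) (nd 10 17 (lf 22 5) z z z) z z)) z))) z (nd 3 14 z (nd 7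
   12 (nd 8 19 z (nd 2 18 z z (lf 22 0) z) z z) z z z) z (nd 3 20 z (nd 7 12 (nd 8 19 z (nd 2 18 z
   z (lf 22 0) z) z z) z z z) z (nd 7 12 (nd 8 19 z (nd 2 18 z z (lf 22 0) z) z z) (nd 8 19 (nd 2
   18 z z (lf 22 0) z) z z z) z z))))) (nd 3 13 (nd 3 16 t12 z z (nd 3 21 (nd 6 12 z (nd 3 14 (nd
   3 20 (nd 7 12 z (nd 8 19 (nd 2 18 z z (lf 22 0) z) z z z) z (nd 8 19 (nd 22 4 z z z (nd 10 17 z
   (lf 22 5) z z)) (nd 22 0 z z (nd 2 18 (lf 22 5) z z z) z) z z)) z z (nd 7 12 z (nd 8 19 (nd 2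
   18 z z (lf 22 0) z) z z z) z z)) z z (nd 7 12 z (nd 8 19 (nd 2 18 z z (lf 22 0) z) z z z) z z))
   (nd 7 12 z (nd 8 19 (nd 2 18 z z (lf 22 0) z) z z z) z (nd 3 14 (nd 3 20 (nd 8 19 (nd 22 4 z z
   z (nd 10 17 z (lf 22 5) z z)) (nd 22 0 z z (nd 2 18 (lf 22 5) z z z) z) z z) (nd 22 3 z z (nd 1
   12 z z (nd 11 21 z z z (nd 2 18 (nd 8 19 z (lf 10 17) z z) (nd 8 19 (lf 10 17) z z z) z z)) (nd
   11 21 z z (nd 22 1 z (nd 2 18 (lf 8 19) z z z) z z) z)) z) z z) (nd 22 3 z z (nd 1 12 z z (nd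
   11 21 z z z (nd 2 18 (nd 8 19 z (lf 10 17) z z) (nd 8 19 (lf 10 17) z z z) z z)) (nd 11 21 z z
   (nd 22 1 z (nd 2 18 (lf 8 19) z z z) z z) z)) z) z z)) z) z z (nd 7 12 z (nd 8 19 (nd 2 18 z z
   (lf 22 0) z) z z z) z (nd 3 14 (nd 1 12 z (nd 3 20 (nd 22 1 z z z (nd 6 12 z (nd 8 19 (nd 10 17
   z (lf 22 5) z z) (nd 10 17 (lf 22 5) z z z) z z) (nd 8 19 (nd 10 17 z (lf 22 5) z z) (nd 10 17
   (lf 22 5) z z z) z z) z)) z z z) (nd 11 21 z z z (nd 3 20 (nd 8 19 (nd 10 17 z (lf 22 5) z z)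
   (nd 10 17 (lf 22 5) z z z) z z) (nd 22 3 z z (nd 2 18 (nd 8 19 z (lf 10 17) z z) (nd 8 19 (lf
   10 17) z z z) z z) z) z z)) z) (nd 22 3 z z (nd 1 12 (nd 3 20 z (nd 2 18 (nd 8 19 z (lf 22 5) z
   z) (nd 8 19 (lf 22 5) z z z) z z) z z) z (nd 11 21 z z z (nd 2 18 (nd 8 19 z (lf 10 17) z z)
   (nd 8 19 (lf 10 17) z z z) z z)) z) z) z z)))) z z (nd 7 12 (nd 8 19 z (nd 2 18 z z (lf 22 0)
   z) z z) (nd 8 19 (nd 2 18 z z (lf 22 0) z) z z z) z z)) z z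

/-- part of the search tree. -/
def t14 : Tr :=
  nd 5 16 (nd 11 13 (nd 8 19 z (nd 22 0 z z (nd 2 18 (nd 7 12 z z z (nd 10 17 z z z (lf 22 1))) z
   z z) z) (nd 11 21 z z z (nd 10 17 z (lf 22 0) z z)) z) z (nd 4 12 z (nd 3 13 (nd 3 16 (nd 3 21
   (nd 7 12 z (nd 8 19 (nd 2 18 z z (lf 22 0) z) z z z) z (nd 3 14 (nd 3 20 (nd 8 19 (nd 22 4 z z
   z (nd 10 17 z (nd 2 18 z z (lf 22 0) z) z z)) (nd 22 0 z z (nd 2 18 (nd 10 17 z z z (lf 22 1))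
   z z z) z) z z) (nd 1 12 z z (nd 11 21 z z z (nd 22 5 z (nd 8 19 (lf 10 17) z z z) z z)) (nd 11
   21 z z (nd 22 1 z (nd 8 19 (nd 2 18 z z (lf 22 9) z) z z z) z z) z)) z z) (nd 1 12 z z (nd 11
   21 z z z (nd 22 5 z (nd 8 19 (lf 10 17) z z z) z z)) (nd 11 21 z z (nd 22 1 z (nd 8 19 (nd 2 18
   z z (lf 22 9) z) z z z) z z) z)) z z)) z z (nd 7 12 z (nd 8 19 (nd 2 18 z z (lf 22 0) z) z z z)
   z (nd 3 14 (nd 1 12 z (nd 3 20 (nd 22 1 z z z (nd 8 19 (nd 10 17 z (nd 2 18 z z (lf 22 0) z) z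
   z) (nd 10 17 (nd 2 18 z z (lf 22 0) z) z z z) z z)) z z z) (nd 11 21 z z z (nd 22 5 z (nd 8 19
   (lf 10 17) z z z) z z)) z) (nd 22 3 z z (nd 1 12 (nd 3 20 z (nd 2 18 (nd 8 19 z (nd 10 17 z z z
   (lf 22 1)) z z) (nd 8 19 (nd 10 17 z z z (lf 22 1)) z z z) z z) z z) z (nd 11 21 z z z (nd 22 5
   z (nd 2 18 (lf 8 19) z z z) z z)) z) z) z z))) z z t11) z z (nd 6 12 z (nd 3 14 (nd 7 12 z (nd
   8 19 (nd 2 18 z z (lf 22 0) z) z z z) z z) z z (nd 3 20 (nd 7 12 z (nd 8 19 (nd 2 18 z z (lf 22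
   0) z) z z z) z z) z z (nd 7 12 (nd 8 19 z (nd 2 18 z z (lf 22 0) z) z z) (nd 8 19 (nd 2 18 z z
   (lf 22 0) z) z z z) z z))) (nd 7 12 (nd 8 19 z (nd 2 18 z z (lf 22 0) z) z z) (nd 8 19 (nd 2 18
   z z (lf 22 0) z) z z z) z z) z)) z (nd 11 21 z z (nd 22 4 (nd 8 19 z (nd 2 18 z z (lf 22 0) z)
   z z) z z z) z)) z) z z (nd 11 13 (nd 4 12 z (nd 3 13 (nd 3 16 (nd 3 21 (nd 6 12 z (nd 22 6 z z
   z (nd 11 21 z z (nd 8 19 z (lf 10 17) z z) z)) (nd 8 19 z (nd 11 15 z z (lf 22 5) z) (nd 11 15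
   z (lf 22 5) z z) z) z) z z (nd 6 12 z (nd 22 6 z z z (nd 11 21 z z (nd 8 19 z (lf 10 17) z z)
   z)) (nd 8 19 z (nd 11 15 z z (lf 22 5) z) (nd 11 15 z (lf 22 5) z z) z) z)) z z (nd 3 21 (nd 6
   12 z (nd 22 6 z z z (nd 11 21 z z (nd 8 19 z (lf 10 17) z z) z)) (nd 8 19 z (nd 11 15 z z (lf
   22 5) z) (nd 11 15 z (lf 22 5) z z) z) z) z z (nd 8 19 z (nd 22 0 z z (nd 2 18 (nd 7 12 z z z
   (nd 10 17 z z z (lf 22 1))) z z z) z) (nd 11 21 z z z (nd 10 17 z (lf 22 0) z z)) z))) z z (nd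
   7 12 z (nd 8 19 z z (lf 22 0) z) (nd 8 19 z (lf 22 0) z z) z)) (nd 11 21 z z z (nd 22 6 z (nd 8
   19 z z (lf 10 17) z) z z)) z) z t13 z)

/-- part of the search tree. -/
def t15 : Tr :=
  nd 3 21 (nd 7 12 z (nd 8 19 (nd 2 18 z z (lf 22 0) z) z z z) z (nd 3 14 (nd 3 20 (nd 8 19 (nd 11
   21 z z (nd 22 1 z (nd 1 12 z z z (nd 2 18 z z (lf 22 9) z)) z z) z) (nd 22 0 z z (nd 2 18 (lf
   22 1) z z z) z) z z) (nd 1 12 z z (nd 11 21 (nd 8 19 z (nd 10 17 z z z (lf 22 5)) z z) z z z)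
   (nd 6 12 z z (nd 8 19 (nd 11 21 z z (nd 22 1 z (nd 2 18 z z (lf 22 9) z) z z) z) (nd 22 0 z z
   (nd 2 18 (lf 22 1) z z z) z) z z) (nd 8 19 (nd 11 21 z z (nd 22 1 z (nd 2 18 z z (lf 22 9) z) z
   z) z) (nd 22 0 z z (nd 2 18 (lf 22 1) z z z) z) z z))) z z) (nd 1 12 z z (nd 11 21 (nd 8 19 z
   (nd 10 17 z z z (lf 22 5)) z z) z z z) (nd 3 20 (nd 6 12 z z (nd 8 19 (nd 11 21 z z (nd 22 1 z
   (nd 2 18 z z (lf 22 9) z) z z) z) (nd 22 0 z z (nd 2 18 (lf 22 1) z z z) z) z z) (nd 8 19 (nd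
   11 21 z z (nd 22 1 z (nd 2 18 z z (lf 22 9) z) z z) z) (nd 22 0 z z (nd 2 18 (lf 22 1) z z z)
   z) z z)) (nd 6 12 z z (nd 8 19 (nd 11 21 z z (nd 22 1 z (nd 2 18 z z (lf 22 9) z) z z) z) (nd
   22 0 z z (nd 2 18 (lf 22 1) z z z) z) z z) (nd 8 19 (nd 11 21 z z (nd 22 1 z (nd 2 18 z z (lf
   22 9) z) z z) z) (nd 22 0 z z (nd 2 18 (lf 22 1) z z z) z) z z)) z z)) z z)) z z (nd 6 12 z (nd
   3 14 (nd 1 12 z (nd 22 1 (nd 8 19 z (nd 2 18 z z (lf 22 0) z) z z) z z z) (nd 11 21 (nd 8 19 z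
   (nd 7 12 z z z (nd 3 20 (nd 10 17 z z z (lf 22 5)) z z z)) z z) z z z) z) z z (nd 7 12 z (nd 8
   19 (nd 2 18 z z (lf 22 0) z) z z z) z z)) (nd 7 12 z (nd 8 19 (nd 2 18 z z (lf 22 0) z) z z z)
   z (nd 3 14 (nd 1 12 z (nd 3 20 (nd 22 1 (nd 8 19 z (nd 2 18 z z (lf 22 0) z) z z) z z z) z z z)
   (nd 11 21 (nd 8 19 z (nd 10 17 z z z (lf 22 5)) z z) z z z) z) (nd 22 3 z z (nd 1 12 (nd 3 20 z
   (nd 11 21 z z (nd 22 1 z (nd 2 18 (lf 8 19) z z z) z z) z) z z) z (nd 11 21 (nd 8 19 z (nd 2 18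
   (lf 22 1) z z z) z z) z z z) z) z) z z)) z)

/-- part of the search tree. -/
def t16 : Tr :=
  nd 3 13 (nd 3 16 t15 z z (nd 3 21 (nd 6 12 z (nd 3 14 (nd 3 20 (nd 7 12 z (nd 8 19 (nd 2 18 z z
   (lf 22 0) z) z z z) z (nd 8 19 (nd 11 21 z z (nd 22 1 z (nd 1 12 z z z (nd 2 18 z z (lf 22 9)
   z)) z z) z) (nd 22 0 z z (nd 2 18 (lf 22 1) z z z) z) z z)) z z (nd 7 12 z (nd 8 19 (nd 2 18 z
   z (lf 22 0) z) z z z) z z)) z z (nd 7 12 z (nd 8 19 (nd 2 18 z z (lf 22 0) z) z z z) z z)) (nd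
   7 12 z (nd 8 19 (nd 2 18 z z (lf 22 0) z) z z z) z (nd 3 14 (nd 3 20 (nd 8 19 (nd 11 21 z z (nd
   22 1 z (nd 1 12 z z z (nd 2 18 z z (lf 22 9) z)) z z) z) (nd 22 0 z z (nd 2 18 (lf 22 1) z z z)
   z) z z) (nd 22 3 z z (nd 1 12 z z (nd 11 21 (nd 8 19 z (nd 2 18 (lf 22 1) z z z) z z) z z z)
   (nd 2 18 (nd 8 19 z (lf 22 1) z z) (nd 8 19 (lf 22 1) z z z) z z)) z) z z) (nd 22 3 z z (nd 1
   12 z z (nd 11 21 (nd 8 19 z (nd 2 18 (lf 22 1) z z z) z z) z z z) (nd 2 18 (nd 8 19 z (lf 22 1)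
   z z) (nd 8 19 (lf 22 1) z z z) z z)) z) z z)) z) z z (nd 6 12 z (nd 3 14 (nd 1 12 z (nd 22 1
   (nd 8 19 z (nd 2 18 z z (lf 22 0) z) z z) z z z) (nd 11 21 (nd 8 19 z (nd 7 12 z z z (nd 3 20
   (nd 10 17 z z z (lf 22 5)) z z z)) z z) z z z) z) z z (nd 7 12 z (nd 8 19 (nd 2 18 z z (lf 22
   0) z) z z z) z z)) (nd 7 12 z (nd 8 19 (nd 2 18 z z (lf 22 0) z) z z z) z (nd 3 14 (nd 1 12 z
   (nd 3 20 (nd 22 1 (nd 8 19 z (nd 2 18 z z (lf 22 0) z) z z) z z z) z z z) (nd 11 21 (nd 8 19 z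
   (nd 10 17 z z z (lf 22 5)) z z) z z z) z) (nd 22 3 z z (nd 1 12 (nd 3 20 z (nd 11 21 z z (nd 22
   1 z (nd 2 18 (lf 8 19) z z z) z z) z) z z) z (nd 11 21 (nd 8 19 z (nd 2 18 (lf 22 1) z z z) z
   z) z z z) z) z) z z)) z))) z z (nd 6 12 z (nd 3 14 (nd 7 12 z (nd 8 19 (nd 2 18 z z (lf 22 0)
   z) z z z) z z) z z (nd 3 20 (nd 7 12 z (nd 8 19 (nd 2 18 z z (lf 22 0) z) z z z) z z) z z (nd 7
   12 (nd 8 19 z (nd 2 18 z z (lf 22 0) z) z z) (nd 8 19 (nd 2 18 z z (lf 22 0) z) z z z) z z)))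
   (nd 7 12 (nd 8 19 z (nd 2 18 z z (lf 22 0) z) z z) (nd 8 19 (nd 2 18 z z (lf 22 0) z) z z z) z
   z) z)

/-- part of the search tree. -/
def t17 : Tr :=
  nd 4 12 z (nd 3 13 (nd 3 16 (nd 3 21 (nd 6 12 z (nd 22 6 z z z (nd 3 14 (nd 3 20 (nd 8 19 z (nd
   10 17 z z (lf 11 15) z) (nd 10 17 z (lf 11 15) z z) z) z z (nd 1 12 z (nd 22 1 (nd 2 18 z (nd 7
   12 z z (lf 8 19) z) (nd 7 12 z (lf 8 19) z z) z) z z z) (nd 11 21 (nd 7 12 z (nd 8 19 z z (lf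
   11 15) z) (nd 8 19 z (lf 11 15) z z) z) z z z) z)) z z (nd 1 12 z (nd 22 1 (nd 2 18 z (nd 7 12
   z z (lf 8 19) z) (nd 7 12 z (lf 8 19) z z) z) z z z) (nd 11 21 (nd 3 20 (nd 7 12 z (nd 8 19 z z
   (lf 11 15) z) (nd 8 19 z (lf 11 15) z z) z) z z (nd 7 12 z (nd 8 19 z z (lf 11 15) z) (nd 8 19
   z (lf 11 15) z z) z)) z z z) z))) (nd 8 19 z (nd 11 15 z z (lf 22 5) z) (nd 11 15 z (lf 22 5) z
   z) z) z) z z (nd 6 12 z (nd 22 6 z z z (nd 3 14 (nd 1 12 z (nd 22 1 (nd 2 18 z (nd 8 19 z z (lf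
   10 17) z) (nd 8 19 z (lf 10 17) z z) z) z z z) (nd 11 21 (nd 3 20 (nd 8 19 z (nd 10 17 z z (lf
   11 15) z) (nd 10 17 z (lf 11 15) z z) z) z z (nd 7 12 z (nd 8 19 z z (lf 11 15) z) (nd 8 19 z
   (lf 11 15) z z) z)) z z z) z) z z (nd 3 20 (nd 1 12 z (nd 22 1 (nd 2 18 z (nd 7 12 z z (lf 8
   19) z) (nd 7 12 z (lf 8 19) z z) z) z z z) (nd 11 21 (nd 7 12 z (nd 8 19 z z (lf 11 15) z) (nd
   8 19 z (lf 11 15) z z) z) z z z) z) z z (nd 7 12 z (nd 8 19 z z (lf 11 15) z) (nd 8 19 z (lf 11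
   15) z z) z)))) (nd 8 19 z (nd 11 15 z z (lf 22 5) z) (nd 11 15 z (lf 22 5) z z) z) z)) z z (nd
   3 21 (nd 8 19 z (nd 22 0 z z (nd 2 18 (lf 22 1) z z z) z) (nd 11 21 (nd 22 0 z (nd 2 18 (lf 22
   9) z z z) z z) z z z) z) z z (nd 8 19 z (nd 22 0 z z (nd 2 18 (lf 22 1) z z z) z) (nd 11 21 (nd
   22 0 z (nd 2 18 (lf 22 9) z z z) z z) z z z) z))) z z (nd 7 12 z (nd 8 19 z z (lf 22 0) z) (nd
   8 19 z (lf 22 0) z z) z)) (nd 11 21 (nd 8 19 z (nd 22 0 z z (nd 2 18 (lf 22 1) z z z) z) (nd 22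
   0 z (nd 2 18 (lf 22 9) z z z) z z) z) z z z) z

/-- part of the search tree. -/
def t18 : Tr :=
  nd 3 16 (nd 3 21 (nd 6 12 z (nd 3 14 (nd 3 20 (nd 7 12 z (nd 8 19 (nd 2 18 z z (lf 22 0) z) z z
   z) z (nd 8 19 (nd 11 21 z z (nd 22 1 z (nd 1 12 z z z (nd 2 18 z z (lf 22 9) z)) z z) z) (nd 22
   0 z z (nd 2 18 (lf 22 1) z z z) z) z z)) z z (nd 7 12 z (nd 8 19 (nd 2 18 z z (lf 22 0) z) z z
   z) z z)) z z (nd 7 12 z (nd 8 19 (nd 2 18 z z (lf 22 0) z) z z z) z z)) (nd 7 12 z (nd 8 19 (nd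
   2 18 z z (lf 22 0) z) z z z) z (nd 3 14 (nd 3 20 (nd 8 19 (nd 11 21 z z (nd 22 1 z (nd 1 12 z z
   z (nd 2 18 z z (lf 22 9) z)) z z) z) (nd 22 0 z z (nd 2 18 (lf 22 1) z z z) z) z z) (nd 1 12 z
   z (nd 11 21 (nd 8 19 z (lf 22 5) z z) z z z) (nd 8 19 (nd 11 21 z z (nd 22 1 z (nd 2 18 z z (lf
   22 9) z) z z) z) (nd 22 0 z z (nd 2 18 (lf 22 1) z z z) z) z z)) z z) (nd 1 12 z z (nd 11 21
   (nd 8 19 z (lf 22 5) z z) z z z) (nd 3 20 (nd 8 19 (nd 11 21 z z (nd 22 1 z (nd 2 18 z z (lf 22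
   9) z) z z) z) (nd 22 0 z z (nd 2 18 (lf 22 1) z z z) z) z z) (nd 8 19 (nd 11 21 z z (nd 22 1 z
   (nd 2 18 z z (lf 22 9) z) z z) z) (nd 22 0 z z (nd 2 18 (lf 22 1) z z z) z) z z) z z)) z z)) z)
   z z (nd 6 12 z (nd 3 14 (nd 1 12 z (nd 22 1 (nd 8 19 z (nd 2 18 z z (lf 22 0) z) z z) z z z)
   (nd 11 21 (nd 8 19 z (lf 22 5) z z) z z z) z) z z (nd 7 12 z (nd 8 19 (nd 2 18 z z (lf 22 0) z)
   z z z) z z)) (nd 7 12 z (nd 8 19 (nd 2 18 z z (lf 22 0) z) z z z) z (nd 3 14 (nd 1 12 z (nd 3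
   20 (nd 22 1 (nd 8 19 z (nd 2 18 z z (lf 22 0) z) z z) z z z) z z z) (nd 11 21 (nd 8 19 z (lf 22
   5) z z) z z z) z) (nd 22 3 z z (nd 1 12 (nd 3 20 z (nd 11 21 z z (nd 22 1 z (nd 2 18 (lf 8 19)
   z z z) z z) z) z z) z (nd 11 21 (nd 8 19 z (lf 22 5) z z) z z z) z) z) z z)) z)) z z (nd 3 21
   (nd 7 12 z (nd 8 19 (nd 2 18 z z (lf 22 0) z) z z z) z (nd 3 14 (nd 3 20 (nd 6 12 z (nd 8 19
   (nd 11 21 z z (nd 22 1 z (nd 1 12 z z z (nd 2 18 z z (lf 22 9) z)) z z) z) (nd 22 0 z z (nd 2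
   18 (lf 22 1) z z z) z) z z) (nd 8 19 (nd 11 21 z z (nd 22 1 z (nd 1 12 z z z (nd 2 18 z z (lf
   22 9) z)) z z) z) (nd 22 0 z z (nd 2 18 (lf 22 1) z z z) z) z z) z) (nd 6 12 z z (nd 22 3 z z
   (nd 1 12 z z (nd 11 21 (nd 8 19 z (lf 22 5) z z) z z z) (nd 2 18 (nd 8 19 z (lf 22 1) z z) (nd
   8 19 (lf 22 1) z z z) z z)) z) z) z z) (nd 22 3 z z (nd 1 12 z z (nd 11 21 (nd 8 19 z (lf 22 5)
   z z) z z z) (nd 2 18 (nd 8 19 z (lf 22 1) z z) (nd 8 19 (lf 22 1) z z z) z z)) z) z z)) z z (nd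
   7 12 z (nd 8 19 (nd 2 18 z z (lf 22 0) z) z z z) z (nd 3 14 (nd 1 12 z (nd 3 20 (nd 22 1 (nd 8
   19 z (nd 2 18 z z (lf 22 0) z) z z) z z z) z z z) (nd 11 21 (nd 8 19 z (lf 22 5) z z) z z z) z)
   (nd 22 3 z z (nd 1 12 (nd 3 20 z (nd 11 21 z z (nd 22 1 z (nd 2 18 (lf 8 19) z z z) z z) z) z
   z) z (nd 11 21 (nd 8 19 z (lf 22 5) z z) z z z) z) z) z z)))

/-- part of the search tree. -/
def t19 : Tr :=
  nd 6 20 (nd 1 16 z z t8 (nd 5 16 z z t9 (nd 11 13 (nd 4 12 z (nd 3 13 (nd 3 16 (nd 3 21 (nd 6 12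
   z (nd 3 14 (nd 8 19 z (nd 11 15 z z (lf 22 5) z) (nd 11 15 z (lf 22 5) z z) z) z z (nd 1 12 z
   (nd 22 1 (nd 2 18 z (nd 7 12 z z (lf 8 19) z) (nd 7 12 z (lf 8 19) z z) z) z z z) (nd 11 21 (nd
   7 12 z (nd 8 19 z z (lf 11 15) z) (nd 8 19 z (lf 11 15) z z) z) z z z) z)) (nd 8 19 z (nd 11 15
   z z (lf 22 5) z) (nd 11 15 z (lf 22 5) z z) z) z) z z (nd 1 12 z (nd 22 1 (nd 2 18 z (nd 8 19 z
   z (lf 22 0) z) (nd 8 19 z (lf 22 0) z z) z) z z z) (nd 11 21 (nd 6 12 z (nd 3 14 (nd 8 19 z (nd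
   11 15 z z (lf 22 5) z) (nd 11 15 z (lf 22 5) z z) z) z z (nd 7 12 z (nd 8 19 z z (lf 11 15) z)
   (nd 8 19 z (lf 11 15) z z) z)) (nd 8 19 z (nd 11 15 z z (lf 22 5) z) (nd 11 15 z (lf 22 5) z z)
   z) z) z z z) z)) z z (nd 3 21 (nd 8 19 z (nd 22 0 z z (nd 2 18 (lf 22 1) z z z) z) (nd 11 21
   (nd 22 0 z (nd 2 18 (lf 22 9) z z z) z z) z z z) z) z z (nd 8 19 z (nd 22 0 z z (nd 2 18 (lf 22
   1) z z z) z) (nd 11 21 (nd 22 0 z (nd 2 18 (lf 22 9) z z z) z z) z z z) z))) z z (nd 7 12 z (nd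
   8 19 z z (lf 22 0) z) (nd 8 19 z (lf 22 0) z z) z)) (nd 11 21 (nd 8 19 z (nd 22 0 z z (nd 2 18
   (lf 22 1) z z z) z) (nd 22 0 z (nd 2 18 (lf 22 9) z z z) z z) z) z z z) z) z t10 z))) z (nd 1
   16 t14 z z (nd 5 16 (nd 11 13 (nd 8 19 z (nd 22 0 z z (nd 2 18 (lf 22 1) z z z) z) (nd 11 21
   (nd 22 0 z (nd 2 18 (lf 22 9) z z z) z z) z z z) z) z (nd 4 12 z t16 z (nd 22 4 (nd 8 19 z (nd
   2 18 z z (lf 22 0) z) z z) z z z)) z) z z (nd 11 13 t17 z (nd 4 12 (nd 11 21 z z (nd 22 4 z z z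
   (nd 3 13 z (nd 1 12 (nd 22 1 z (nd 8 19 (lf 10 17) z z z) z z) z z (nd 3 21 z (nd 3 16 z (nd 6
   12 (nd 8 19 (nd 10 17 z (lf 22 1) z z) (nd 10 17 (lf 22 1) z z z) z z) z (nd 8 19 (nd 10 17 z
   (lf 22 1) z z) (nd 10 17 (lf 22 1) z z z) z z) z) z (nd 6 12 (nd 8 19 (nd 10 17 z (lf 22 1) z
   z) (nd 10 17 (lf 22 1) z z z) z z) z (nd 8 19 (nd 10 17 z (lf 22 1) z z) (nd 10 17 (lf 22 1) z
   z z) z z) z)) z z)) z (nd 1 12 (nd 22 1 z (nd 8 19 (lf 10 17) z z z) z z) (nd 3 14 z z z (nd 3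
   20 z z z (nd 22 1 (nd 8 19 z (lf 10 17) z z) z z z))) z z))) z) (nd 3 13 t18 z z (nd 7 12 (nd 8
   19 z (nd 2 18 z z (lf 22 0) z) z z) (nd 8 19 (nd 2 18 z z (lf 22 0) z) z z z) z z)) z z) z))) z

/-- part of the search tree. -/
def t20 : Tr :=
  nd 7 21 (nd 9 14 z (nd 22 9 z z (nd 2 18 z (nd 8 19 z z z (nd 7 12 (nd 7 16 (nd 10 17 (lf 22 1)
   z z z) z z z) z z z)) z (nd 7 16 (nd 8 19 z (nd 7 12 (nd 10 17 (lf 22 1) z z z) z z z) z z) z z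
   z)) (nd 2 18 z (nd 8 19 z z (nd 7 12 (nd 7 16 (nd 10 17 (nd 11 13 z z z (lf 22 5)) z z z) z z
   z) z z z) z) (nd 7 16 (nd 8 19 z (nd 7 12 (nd 10 17 (nd 22 0 z z z (nd 22 1 z z z (nd 22 3 z z
   z (nd 22 4 z z z (nd 22 5 z z z (nd 11 13 z z (nd 11 15 z z (nd 3 14 z (nd 1 15 z z (nd 3 20 z
   (nd 9 15 z z (nd 3 13 z (nd 4 12 (nd 3 16 z (nd 3 21 z (nd 4 15 z z (nd 5 16 z z (nd 6 20 z z z
   (lf 22 6)) z) z) z z) z z) z z z) z z) z) z z) z) z z) z) z)))))) z z z) z z z) z z) z z z) z))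
   z t5) z z (nd 4 15 z (nd 9 14 z (nd 22 0 z (nd 2 18 (nd 8 19 z z (lf 22 9) z) z (nd 8 19 (lf 22
   9) z z z) z) (nd 2 18 (nd 7 16 z z z (nd 8 19 z (nd 7 12 z z z (nd 10 17 z z z (lf 22 1))) z
   z)) (nd 8 19 (nd 7 12 z z z (nd 7 16 z z z (nd 10 17 z z z (lf 22 1)))) z z z) z z) z) z (nd 11
   13 (nd 7 16 z z (nd 8 19 z (lf 22 0) z z) (nd 8 19 z (nd 22 0 z z (nd 2 18 (nd 7 12 z z z (nd
   10 17 z z z (lf 22 1))) z z z) z) (nd 22 0 z (nd 2 18 (nd 7 12 z z z (nd 10 17 z z z (lf 22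
   4))) z z z) z z) z)) z (nd 7 16 (nd 8 19 z (nd 2 18 z z (lf 22 0) z) z z) z z (nd 8 19 (nd 2 18
   z (nd 7 12 z z z (nd 10 17 z z z (lf 22 1))) (nd 22 0 z (nd 7 12 z z z (nd 10 17 z z z (lf 22
   4))) z z) z) (nd 22 0 z z (nd 2 18 (nd 7 12 z z z (nd 10 17 z z z (lf 22 1))) z z z) z) z z))
   z)) (nd 7 16 (nd 2 18 z (nd 8 19 z z (lf 22 0) z) (nd 8 19 z (lf 22 0) z z) z) z z (nd 9 14 z
   t19 z (nd 11 13 (nd 8 19 z (nd 22 0 z z (nd 2 18 (nd 7 12 z z z (nd 10 17 z z z (lf 22 1))) z z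
   z) z) (nd 22 0 z (nd 2 18 (nd 7 12 z z z (nd 10 17 z z z (lf 22 4))) z z z) z z) z) z (nd 8 19
   (nd 22 4 z z z (nd 10 17 z (nd 2 18 z z (lf 22 0) z) z z)) (nd 22 0 z z (nd 2 18 (nd 7 12 z z z
   (nd 10 17 z z z (lf 22 1))) z z z) z) z z) z))) z)

/-- part of the search tree. -/
def t21 : Tr :=
  nd 1 13 (nd 7 21 z z (nd 4 15 z t2 z (nd 4 20 z (nd 7 16 (nd 2 18 z (nd 8 19 z z z (lf 22 0)) z
   (nd 8 19 z (lf 22 0) z z)) z (nd 11 13 (nd 8 19 z (nd 22 0 z z z (nd 2 18 (nd 7 12 z z (nd 10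
   17 z z (lf 22 4) z) z) z z z)) z (nd 22 0 z (nd 2 18 (nd 7 12 z z (nd 10 17 z z (lf 22 4) z) z)
   z z z) z z)) z z (nd 8 19 (nd 22 4 z z (nd 10 17 z (nd 2 18 z z z (lf 22 0)) z z) z) (nd 22 0 z
   z z (nd 2 18 (nd 7 12 z z (nd 10 17 z z (lf 22 4) z) z) z z z)) z z)) z) z (nd 1 16 (nd 11 21 z
   z t4 z) z (nd 11 13 (nd 11 21 (nd 5 16 (nd 6 20 z (nd 8 19 z (nd 22 0 z z z (nd 2 18 (nd 7 12 z
   z (nd 10 17 z z (lf 22 4) z) z) z z z)) z (nd 22 0 z (nd 2 18 (nd 7 12 z z (nd 10 17 z z (lf 22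
   4) z) z) z z z) z z)) z (nd 8 19 z (nd 22 0 z z z (nd 2 18 (nd 7 12 z z (nd 10 17 z z (lf 22 4)
   z) z) z z z)) z (nd 22 0 z (nd 2 18 (nd 7 12 z z (nd 10 17 z z (lf 22 4) z) z) z z z) z z))) z
   (nd 4 12 z (nd 3 13 (nd 3 16 (nd 1 15 z (nd 22 1 z z z (nd 8 19 z (nd 2 18 (nd 10 17 z z (lf 22
   4) z) z z z) z z)) z (nd 22 1 z (nd 8 19 z z z (nd 2 18 (nd 10 17 z z (lf 22 4) z) z z z)) z
   z)) z (nd 3 21 (nd 1 15 z (nd 22 1 z z z (nd 8 19 z (nd 2 18 (nd 10 17 z z (lf 22 4) z) z z z)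
   z z)) z (nd 22 1 z (nd 8 19 z z z (nd 2 18 (nd 10 17 z z (lf 22 4) z) z z z)) z z)) z (nd 1 12
   z (nd 22 1 z z z (nd 8 19 z (nd 2 18 (nd 10 17 z z (lf 22 4) z) z z z) z z)) z (nd 22 1 z (nd 8
   19 z z z (nd 2 18 (nd 10 17 z z (lf 22 4) z) z z z)) z z)) z) z) z (nd 1 12 z (nd 22 1 z z z
   (nd 8 19 z (nd 2 18 (nd 7 12 z z z (lf 22 0)) z z z) z z)) z (nd 22 1 z (nd 8 19 z z z (nd 2 18
   (nd 7 12 z (lf 22 0) z z) z z z)) z z)) z) z (nd 8 19 z (nd 22 0 z z z (nd 2 18 (nd 7 12 z z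
   (nd 10 17 z z (lf 22 4) z) z) z z z)) z (nd 22 0 z (nd 2 18 (nd 7 12 z z (nd 10 17 z z (lf 22
   4) z) z) z z z) z z))) z) z z z) z z z) z))) z) z (nd 4 20 z t20 z (nd 7 21 (nd 1 16 (nd 11 13
   z z (nd 11 21 z z (nd 5 16 (nd 4 12 z (nd 8 19 z (nd 22 1 z z z (nd 2 18 z z (nd 10 17 (lf 22
   4) z z z) z)) z (nd 22 1 z (nd 2 18 z z (nd 10 17 (lf 22 4) z z z) z) z z)) z (nd 8 19 z (nd 22
   1 z z z (nd 2 18 z z (nd 10 17 (lf 22 4) z z z) z)) z (nd 22 1 z (nd 2 18 z z (nd 10 17 (lf 22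
   4) z z z) z) z z))) z (nd 6 20 z (nd 9 14 z z z (nd 8 19 z (nd 22 1 z z z (nd 2 18 z z (lf 22
   9) z)) z (nd 22 1 z (nd 2 18 z z (nd 10 17 (lf 22 4) z z z) z) z z))) z (nd 9 14 z (nd 8 19 z
   (nd 22 1 z z z (nd 2 18 z z (nd 10 17 (lf 22 4) z z z) z)) z (nd 22 1 z (nd 2 18 z z (lf 22 9)
   z) z z)) z z)) z) z) z) z (nd 11 21 (nd 5 16 (nd 6 20 z (nd 9 14 z z z (nd 7 16 (nd 11 13 z z
   (nd 22 6 z z z (nd 8 19 z (lf 10 17) z z)) z) z (nd 11 13 (nd 22 9 z (nd 2 18 z z z (lf 8 19))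
   z z) z z z) z)) z (nd 9 14 z (nd 7 16 (nd 11 13 z z (nd 22 6 z (nd 8 19 z z z (lf 10 17)) z z)
   z) z (nd 11 13 (nd 22 9 z z z (nd 2 18 z (lf 8 19) z z)) z z z) z) z z)) z (nd 4 12 z (nd 7 16
   (nd 11 13 z z (nd 6 20 z (nd 9 14 z z z (nd 22 6 z z z (nd 8 19 z (lf 10 17) z z))) z (nd 9 14
   z (nd 22 6 z (nd 8 19 z z z (lf 10 17)) z z) z z)) z) z (nd 11 13 (nd 2 18 z (nd 8 19 z z z (lf
   22 0)) z (nd 8 19 z (lf 22 0) z z)) z z z) z) z (nd 7 16 (nd 11 13 z z (nd 6 20 z (nd 9 14 z z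
   z (nd 22 6 z z z (nd 8 19 z (lf 10 17) z z))) z (nd 9 14 z (nd 22 6 z (nd 8 19 z z z (lf 10
   17)) z z) z z)) z) z (nd 11 13 (nd 2 18 z (nd 8 19 z z z (lf 22 0)) z (nd 8 19 z (lf 22 0) z
   z)) z z z) z)) z) z z z) z) z z z)) z

/-- part of the search tree. -/
def tree : Tr :=
  nd 0 13 (nd 4 14 z t21 z z) z z z

theorem chk_tree : chk 23 ups tree ups ups ups ups = true := by decide +kernel

end Pool.Agent.MP_cfa48c_co.H50
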