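import Pool.Agent.MP_cfa48c_co.H50.Data

/-! The poset on 23 points: order axioms, realizers of the deletions, no realizer of size four. -/

namespace Pool.Agent.MP_cfa48c_co.H50

/-- the ground set. -/
def Pt : Type := Fin 23

instance : Fintype Pt := inferInstanceAs (Fintype (Fin 23))

theorem ups_refl : ∀ a : Fin 23, bit ups a.val a.val = true := by decide +kernel

theorem ups_trans : ∀ a b c : Fin 23, bit ups a.val b.val = true → bit ups b.val c.val = true →
    bit ups a.val c.val = true := by decide +kernel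

theorem ups_anti : ∀ a b : Fin 23, bit ups a.val b.val = true → bit ups b.val a.val = true →
    a = b := by decide +kernel

/-- the order. -/
instance ptOrder : PartialOrder Pt where
  le a b := bit ups (Fin.val (n := 23) a) (Fin.val (n := 23) b) = true
  le_refl a := ups_refl a
  le_trans a b c := ups_trans a b c
  le_antisymm a b := ups_anti a b

/-- the rank of `a` in the `i`-th extension of the deletion of `x` and `y`. -/
def rk (y i a : ℕ) : ℕ := (tab.getD (3 * y + i) 0 >>> (5 * a)) % 32

theorem rk_inj : ∀ y : Fin 23, y ≠ 22 → ∀ i : Fin 3, ∀ a b : Fin 23, a ≠ 22 → a ≠ y → b ≠ 22 →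
    b ≠ y → rk y.val i.val a.val = rk y.val i.val b.val → a = b := by decide +kernel

theorem rk_real : ∀ y : Fin 23, y ≠ 22 → ∀ a b : Fin 23, a ≠ 22 → a ≠ y → b ≠ 22 → b ≠ y →
    (bit ups a.val b.val = true ↔ ∀ i : Fin 3, rk y.val i.val a.val ≤ rk y.val i.val b.val) := by
  decide +kernel

theorem ups_lt : ∀ a : Fin 23, ups.getD a.val 0 < 2 ^ 23 := by decide +kernel

theorem bit_lt {a b : ℕ} (h : bit ups a b = true) : a < 23 ∧ b < 23 := by
  have ha : a < 23 := by
    by_contra hn
    have hl : ups.length = 23 := by decide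
    unfold bit at h
    rw [List.getD_eq_default _ _ (by omega)] at h
    simp at h
  refine ⟨ha, ?_⟩
  by_contra hb
  have h1 := ups_lt ⟨a, ha⟩
  have h2 : ups.getD a 0 < 2 ^ b :=
    lt_of_lt_of_le h1 (Nat.pow_le_pow_right (by norm_num) (by omega))
  unfold bit at h
  rw [Nat.testBit_lt_two_pow h2] at h
  exact absurd h (by simp)

theorem no_four (g : Fin 4 → Fin 23 → ℕ)
    (hg : ∀ a b : Fin 23, (bit ups a.val b.val = true ↔ ∀ i, g i a ≤ g i b)) : False := by
  let e : Fin 4 → ℕ → ℕ := fun i a => if h : a < 23 then g i ⟨a, h⟩ else 0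
  have he : ∀ i, Comp ups (e i) := by
    intro i a b hab
    obtain ⟨ha, hb⟩ := bit_lt hab
    simp only [e, dif_pos ha, dif_pos hb]
    exact (hg ⟨a, ha⟩ ⟨b, hb⟩).1 hab i
  obtain ⟨u, v, hu, hv, hP, y0, y1, y2, y3⟩ :=
    chk_sound 23 ups tree ups ups ups ups chk_tree (e 0) (e 1) (e 2) (e 3) (he 0) (he 1) (he 2)
      (he 3)
  simp only [e, dif_pos hu, dif_pos hv] at y0 y1 y2 y3
  have : bit ups u v = true := (hg ⟨u, hu⟩ ⟨v, hv⟩).2 (by
    intro i
    fin_cases i
    · exact y0
    · exact y1
    · exact y2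
    · exact y3)
  rw [hP] at this
  exact absurd this (by simp)

end Pool.Agent.MP_cfa48c_co.H50
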